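import Pool.Agent.MP_53fe41_co.h78.Uniq
import Pool.Agent.MP_53fe41_co.Defs

/-! Polychromatic colourings with many colours for cubes of tower-size dimension. -/

namespace Pool.Agent.MP_53fe41_co.h78

open Finset

open Classical in
theorem surj {t : ℕ} (V B : Finset ℕ) (D : Fin t → ℕ) (z : ℕ → ℕ) (Φ : Finset ℕ → Prop)
    (hcV : ∑ i, D i = V.card) (hD : ∀ i, 0 < D i) (hz : Set.InjOn z V) (hB : ∀ a ∈ V, z a ∉ B)
    (hodd : ((WW V D (fun I => Φ (I.image z)) 0).card : ZMod 2) = 1) (y : Fin t → ZMod 2) :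
    ∃ X ⊆ V, ∀ i : Fin t,
      ((((B ∪ X.image z).powersetCard (D i)).filter Φ).card : ZMod 2) = y i := by
  set pre : Finset ℕ → Finset ℕ := fun U => V.filter fun a => z a ∈ U with hpre
  set L : Fin t → Finset ℕ → Finset (Finset ℕ) := fun i J =>
    (((B ∪ V.image z).powersetCard (D i)).filter Φ).filter fun U => pre U = J
    with hL
  set c : Fin t → Finset ℕ → ZMod 2 := fun i J =>
    (L i J).card + if J = ∅ then y i + 1 else 0 with hc
  have hLsub : ∀ i J U, U ∈ L i J → J.image z ⊆ U ∧ U.card = D i ∧ Φ U := by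
    intro i J U hU
    simp only [hL, mem_filter, mem_powersetCard] at hU
    refine ⟨?_, hU.1.1.2, hU.1.2⟩
    intro x hx
    obtain ⟨a, ha, rfl⟩ := mem_image.1 hx
    rw [← hU.2] at ha
    exact (mem_filter.1 ha).2
  have hcim : ∀ J, J ⊆ V → (J.image z).card = J.card := fun J hJ =>
    card_image_of_injOn (hz.mono (by exact_mod_cast hJ))
  have hpar := parity V c D hcV (by
    intro i J hJ h0
    by_cases hJ0 : J = ∅
    · simp [hJ0]
    · have h1 : (L i J).card ≠ 0 := fun h => h0 (by simp [hc, hJ0, h])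
      obtain ⟨U, hU⟩ := card_pos.1 (Nat.pos_of_ne_zero h1)
      obtain ⟨h2, h3, -⟩ := hLsub i J U hU
      have := card_le_card h2
      rw [hcim J hJ] at this
      omega)
  have htop : ∀ (i : Fin t) (J : Finset ℕ), J ⊆ V → J.card = D i →
      c i J = if Φ (J.image z) then 1 else 0 := by
    intro i J hJ hcard
    have hJ0 : J ≠ ∅ := by
      rintro rfl
      have := hD i
      rw [card_empty] at hcard
      omega
    have h1 : ∀ U ∈ L i J, U = J.image z := fun U hU => by
      obtain ⟨h2, h3, -⟩ := hLsub i J U hU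
      exact (eq_of_subset_of_card_le h2 (by rw [hcim J hJ]; omega)).symm
    simp only [hc, hJ0, if_false, add_zero]
    split_ifs with hv
    · have : L i J = {J.image z} := by
        refine eq_singleton_iff_unique_mem.2 ⟨?_, h1⟩
        simp only [hL, mem_filter, mem_powersetCard]
        refine ⟨⟨⟨(image_subset_image hJ).trans subset_union_right, by rw [hcim J hJ, hcard]⟩,
          hv⟩, ?_⟩
        ext a
        simp only [hpre, mem_filter, mem_image]
        constructor
        · rintro ⟨ha, b, hb, hab⟩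
          rwa [← hz (hJ hb) ha hab]
        · intro ha
          exact ⟨hJ ha, a, ha, rfl⟩
      rw [this, card_singleton, Nat.cast_one]
    · have : L i J = ∅ := by
        refine eq_empty_of_forall_notMem fun U hU => hv ?_
        rw [← h1 U hU]
        exact (hLsub i J U hU).2.2
      rw [this, card_empty, Nat.cast_zero]
  have hrhs : ∑ J ∈ (Fintype.piFinset fun _ : Fin t => V.powerset).filter
      (fun J => univ.biUnion J = V ∧ ∀ i : Fin t, (J i).card = D i),
      ∏ i, c i (J i) = 1 := by
    rw [← hodd, WW, card_filter, Nat.cast_sum]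
    refine sum_congr rfl fun J hJ => ?_
    obtain ⟨h1, -, h2⟩ := mem_filter.1 hJ
    have h3 : ∀ i, J i ⊆ V := by simpa using h1
    have h4 : ∀ i, Cl V 0 (J i) := fun i k hk x hx _ u hu => by
      obtain rfl : k = 0 := by omega
      simp at hu
      rwa [hu]
    rw [prod_congr rfl fun i _ => htop i (J i) (h3 i) (h2 i), prod_ite_zero]
    simp [h4]
  rw [hrhs] at hpar
  obtain ⟨X, hX, hX1⟩ := exists_ne_zero_of_sum_ne_zero (hpar ▸ one_ne_zero)
  have hXV := mem_powerset.1 hX
  refine ⟨X, hXV, fun i => ?_⟩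
  have h1 := prod_ne_zero_iff.1 hX1 i (mem_univ i)
  have h2 : (((B ∪ X.image z).powersetCard (D i)).filter Φ).card =
      ∑ J ∈ X.powerset, (L i J).card := by
    rw [card_eq_sum_card_fiberwise (f := pre) (t := X.powerset)]
    · refine sum_congr rfl fun J hJ => congrArg _ ?_
      ext U
      simp only [hL, mem_filter, mem_powersetCard]
      constructor
      · rintro ⟨⟨⟨h3, h4⟩, h5⟩, h6⟩
        exact ⟨⟨⟨h3.trans (union_subset_union_right (image_subset_image hXV)), h4⟩, h5⟩, h6⟩
      · rintro ⟨⟨⟨h3, h4⟩, h5⟩, h6⟩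
        refine ⟨⟨⟨fun x hx => ?_, h4⟩, h5⟩, h6⟩
        rcases mem_union.1 (h3 hx) with h | h
        · exact mem_union_left _ h
        · obtain ⟨a, ha, rfl⟩ := mem_image.1 h
          have : a ∈ pre U := mem_filter.2 ⟨ha, hx⟩
          rw [h6] at this
          exact mem_union_right _ (mem_image_of_mem _ (mem_powerset.1 hJ this))
    · intro U hU
      have h3 := (mem_powersetCard.1 (mem_filter.1 hU).1).1
      refine mem_coe.2 (mem_powerset.2 fun a ha => ?_)
      obtain ⟨h4, h5⟩ := mem_filter.1 ha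
      rcases mem_union.1 (h3 h5) with h | h
      · exact absurd h (hB a h4)
      · obtain ⟨b, hb, hab⟩ := mem_image.1 h
        rwa [← hz (hXV hb) h4 hab]
  rw [h2, Nat.cast_sum]
  simp only [hc, sum_add_distrib, sum_ite_eq', empty_mem_powerset, if_true] at h1
  revert h1
  generalize (∑ J ∈ X.powerset, ((L i J).card : ZMod 2)) = u
  generalize y i = v
  revert u v
  decide

theorem le_pc_of {Y : Type} [Fintype Y] {l k n : ℕ} (hn : l + k ≤ n) (F : Finset ℕ → Y)
    (hF : ∀ B S : Finset ℕ, (∀ x ∈ S, x < n) → Disjoint B S → S.card = k →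
      ∀ y, ∃ X ⊆ S, F (B ∪ X) = y) : Fintype.card Y ≤ pc l n (l + k) := by
  classical
  refine le_csSup ⟨Fintype.card {A : Set (Fin n → Bool) // IsSubcube n l A}, ?_⟩ ?_
  · rintro q' ⟨χ, hχ⟩
    obtain ⟨S, -, hS⟩ := Finset.exists_subset_card_eq (s := (univ : Finset (Fin n)))
      (n := l + k) (by simpa using hn)
    have hsurj : Function.Surjective χ := fun c => by
      obtain ⟨A, -, hA⟩ := hχ _ ⟨S, hS, fun _ => false, rfl⟩ c
      exact ⟨A, hA⟩
    simpa using Fintype.card_le_of_surjective χ hsurj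
  · refine ⟨fun A => Fintype.equivFin Y
      (F ((univ.filter fun i => ∀ x ∈ A.1, x i = true).image Fin.val)), ?_⟩
    rintro B ⟨S, hS, v, rfl⟩ c
    obtain ⟨S1, hS1, hc1⟩ := Finset.exists_subset_card_eq (s := S) (n := l) (by omega)
    obtain ⟨X, hX, hFX⟩ := hF ((univ.filter fun i => i ∉ S ∧ v i = true).image Fin.val)
      ((S \ S1).image Fin.val)
      (fun x hx => by
        obtain ⟨i, -, rfl⟩ := mem_image.1 hx
        exact i.2)
      (disjoint_left.2 fun x hx hx' => by
        obtain ⟨i, hi, rfl⟩ := mem_image.1 hx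
        obtain ⟨j, hj, hij⟩ := mem_image.1 hx'
        rw [Fin.val_injective hij] at hj
        exact (mem_filter.1 hi).2.1 (mem_sdiff.1 hj).1)
      (by rw [card_image_of_injective _ Fin.val_injective, card_sdiff_of_subset hS1]; omega)
      ((Fintype.equivFin Y).symm c)
    set w : Fin n → Bool := fun i => if i ∈ S then decide (i.val ∈ X) else v i with hw
    refine ⟨⟨_, S1, hc1, w, rfl⟩, ?_, ?_⟩
    · intro x hx i hi
      have := hx i fun h => hi (hS1 h)
      simpa [hw, hi] using this
    · have h1 : (univ.filter fun i => ∀ x ∈ {x : Fin n → Bool | ∀ i, i ∉ S1 → x i = w i},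
          x i = true).image Fin.val =
          (univ.filter fun i => i ∉ S ∧ v i = true).image Fin.val ∪ X := by
        have h2 : ∀ i, (∀ x ∈ {x : Fin n → Bool | ∀ i, i ∉ S1 → x i = w i}, x i = true) ↔
            i ∉ S1 ∧ w i = true := by
          intro i
          constructor
          · intro h
            refine ⟨fun hi => ?_, h w fun _ _ => rfl⟩
            have := h (fun j => if j = i then false else w j) (fun j hj => by
              have : j ≠ i := fun e => hj (e ▸ hi)
              simp [this])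
            simp at this
          · rintro ⟨h3, h4⟩ x hx
            rw [hx i h3, h4]
        ext a
        simp only [mem_image, mem_filter, mem_univ, true_and, mem_union, h2]
        constructor
        · rintro ⟨i, ⟨h3, h4⟩, rfl⟩
          by_cases hi : i ∈ S
          · exact Or.inr (by simpa [hw, hi] using h4)
          · exact Or.inl ⟨i, ⟨hi, by simpa [hw, hi] using h4⟩, rfl⟩
        · rintro (⟨i, ⟨h3, h4⟩, rfl⟩ | h)
          · exact ⟨i, ⟨fun h => h3 (hS1 h), by simpa [hw, h3] using h4⟩, rfl⟩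
          · obtain ⟨i, hi, rfl⟩ := mem_image.1 (hX h)
            obtain ⟨h3, h4⟩ := mem_sdiff.1 hi
            exact ⟨i, ⟨h4, by simpa [hw, h3] using h⟩, rfl⟩
      simp only [h1, hFX, Equiv.apply_symm_apply]

theorem triv_le_pc {l k n q : ℕ} (hn : l + k ≤ n) (hq0 : 0 < q) (hq : q ≤ k + 1) :
    q ≤ pc l n (l + k) := by
  have := le_pc_of (Y := Fin q) hn (fun A => ⟨A.card % q, Nat.mod_lt _ hq0⟩) (by
    intro B S _ hd hS y
    have h1 := Nat.mod_lt (y + (q - B.card % q)) hq0
    obtain ⟨X, hX, hc⟩ := Finset.exists_subset_card_eq (s := S)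
      (n := (y + (q - B.card % q)) % q) (by omega)
    refine ⟨X, hX, Fin.ext ?_⟩
    have h2 := Nat.mod_lt B.card hq0
    have h3 : B.card % q + (y + (q - B.card % q)) = y + q := by omega
    simp only [card_union_of_disjoint (hd.mono_right hX), hc]
    rw [Nat.add_mod_mod, ← Nat.mod_add_mod, h3, Nat.add_mod_right, Nat.mod_eq_of_lt y.2])
  simpa using this

lemma mm_le (C N j : ℕ) : mm C N j + 1 ≤ (2 * C + 2) ^ j * (N + 1) := by
  induction j with
  | zero => simp [mm]
  | succ j ih =>
    rw [mm, pow_succ, mul_right_comm]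
    refine le_trans ?_ (Nat.mul_le_mul_right _ ih)
    nlinarith

theorem tower_le_pc {H N t l k n : ℕ} (ht : 1 ≤ t) (hH : H ≤ t)
    (hk : (20 * t ^ 3 + 2) ^ H * (N + 1) ≤ k) (hn : l + k ≤ n)
    (hn' : n ≤ (fun x => 2 ^ x)^[H] N) : 2 ^ t ≤ pc l n (l + k) := by
  classical
  obtain ⟨K, hK1, hK2⟩ : ∃ K, 2 ^ K ≤ 5 * (t * t) ∧ 5 * (t * t) < 2 ^ (K + 1) :=
    ⟨Nat.log 2 (5 * (t * t)), Nat.pow_log_le_self 2 (by positivity),
      Nat.lt_pow_succ_log_self (by norm_num) _⟩
  have e3 : t ≤ t * t := Nat.le_mul_self t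
  set σ : ℕ → ℕ := fun s => H + t - s with hσ
  have hσ1 : ∀ s, s < t → 1 ≤ σ s ∧ 2 + 2 * σ s ≤ 2 ^ (K + 1) := fun s hs => by
    simp only [hσ]; omega
  have := le_pc_of (Y := Fin t → ZMod 2) hn (fun A i =>
    (((A.powersetCard (2 ^ (K + 1) + (1 + 2 * σ i))).filter
      (Phi H (2 ^ (K + 1)))).card : ZMod 2)) (by
    intro B S hSn hd hS y
    have h1 := mm_le (10 * t ^ 3) N H
    obtain ⟨z, -, hz1, hz2, hz3, hz4⟩ := hidden (10 * t ^ 3) N H S
      (fun x hx => lt_of_lt_of_le (hSn x hx) hn') (by
        rw [show 2 * (10 * t ^ 3) + 2 = 20 * t ^ 3 + 2 by ring] at h1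
        omega)
    have hV : ∀ a ∈ VV (K + 1) σ t, a < 2 * (10 * t ^ 3 + 1) := by
      intro a ha
      obtain ⟨s, hs, ha⟩ := mem_biUnion.1 ha
      have hs' := mem_range.1 hs
      have h2 := Bl_div (hσ1 s hs').2 ha
      have h3 : a / 2 ^ (K + 1) < 2 * t := by omega
      rw [Nat.div_lt_iff_lt_mul (by positivity), pow_succ] at h3
      nlinarith [Nat.mul_le_mul_left (2 * t * 2) hK1]
    obtain ⟨X, hX, hy⟩ := surj (VV (K + 1) σ t) B
      (fun i : Fin t => 2 ^ (K + 1) + (1 + 2 * σ i)) z (Phi H (2 ^ (K + 1)))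
      (card_VV fun s hs => (hσ1 s hs).2) (fun i => by positivity)
      ((hz2.on hV).elim StrictMonoOn.injOn StrictAntiOn.injOn)
      (fun a ha h => disjoint_left.1 hd h (hz1 a (hV a ha)))
      (count_odd hσ1 (fun s s' h h' => by simp only [hσ]; omega)
        (by
          have h2 := sum_le_card_nsmul (range t) (fun s => 1 + 2 * σ s) (1 + 4 * t)
            (fun s _ => by simp only [hσ]; omega)
          rw [card_range, smul_eq_mul] at h2
          nlinarith)
        _
        (fun I hI h => by
          have h4 : Cl (VV (K + 1) σ t) 0 I := fun k hk x hx _ u hu => by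
            obtain rfl : k = 0 := by omega
            simp at hu
            rwa [hu]
          obtain ⟨f, g1, g2, g3⟩ := h4.iso
          simp only [zero_add, pow_one] at g2
          rw [g1]
          exact (hz3 _ I f (fun a ha => hV a (hI ha))
            (fun a ha => by have := hV a (hI ha); have := g2 a; omega)
            (fun a ha b hb hab => (g3 a ha b hb hab).1) fun a _ => g2 a).2 h)
        (fun i I hI hc hG => by
          have := i.2
          simp only [hσ] at hc
          exact hz4 _ I (fun a ha => hV a (hI ha)) hG (by omega) (by omega)))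
      y
    refine ⟨X.image z, fun x hx => ?_, funext hy⟩
    obtain ⟨a, ha, rfl⟩ := mem_image.1 hx
    exact hz1 a (hV a (hX ha)))
  simpa using this

end Pool.Agent.MP_53fe41_co.h78
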