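import Mathlib.Logic.Equiv.PartialEquiv
import Mathlib.Topology.Sheaves.Presheaf
import Mathlib.Tactic.ENatToNat
import Mathlib.Tactic.Monotonicity.Lemmas
import Mathlib.Data.Int.ConditionallyCompleteOrder
import Mathlib.Data.Int.Star
import Mathlib.Algebra.Order.Ring.Star
import Mathlib.Tactic.Bound
import Mathlib.Combinatorics.SimpleGraph.Basic
import Mathlib.Data.Finset.Interval
import Mathlib.Data.Nat.Bitwise
import Mathlib.RingTheory.PiTensorProduct
import Mathlib.RingTheory.WittVector.IsPoly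
import Mathlib.Tactic.Polynomial.Basic
import Mathlib.Tactic.ReduceModChar

-- ======== part 0: formerly Pool.Agent.MP_53fe41_co.h78.Tree
section MrgPart0

/-! Binary tree structure of finite sets of naturals: long combs or many cherries. -/

namespace Pool.Agent.MP_53fe41_co.h78

open Finset

/-- The highest binary digit in which `x` and `y` differ. -/
def dl (x y : ℕ) : ℕ := Nat.log 2 (x ^^^ y)

lemma dl_comm (x y : ℕ) : dl x y = dl y x := by
  unfold dl; rw [Nat.xor_comm]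

lemma dl_xor (x y m : ℕ) : dl (x ^^^ m) (y ^^^ m) = dl x y := by
  unfold dl
  congr 1
  rw [Nat.xor_assoc, Nat.xor_comm y m, ← Nat.xor_assoc m m y, Nat.xor_self, Nat.zero_xor]

lemma dl_lt_iff {x y : ℕ} (h : x ≠ y) (N : ℕ) : dl x y < N ↔ x / 2 ^ N = y / 2 ^ N := by
  have h0 : x ^^^ y ≠ 0 := fun h' => h (Nat.xor_eq_zero_iff.1 h')
  unfold dl
  rw [Nat.log_lt_iff_lt_pow (by norm_num) h0, ← Nat.xor_eq_zero_iff, ← Nat.xor_div_two_pow,
    Nat.div_eq_zero_iff]
  have : 2 ^ N ≠ 0 := by positivity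
  tauto

lemma div_mono {x y a b : ℕ} (hab : a ≤ b) (h : x / 2 ^ a = y / 2 ^ a) :
    x / 2 ^ b = y / 2 ^ b := by
  obtain ⟨c, rfl⟩ := Nat.exists_eq_add_of_le hab
  rw [pow_add, ← Nat.div_div_eq_div_mul, ← Nat.div_div_eq_div_mul, h]

lemma dl_eq {x y N : ℕ} (h1 : x / 2 ^ (N + 1) = y / 2 ^ (N + 1)) (h2 : x / 2 ^ N ≠ y / 2 ^ N) :
    dl x y = N := by
  have h : x ≠ y := fun h => h2 (by rw [h])
  have h3 := (dl_lt_iff h (N + 1)).2 h1
  have h4 : ¬ dl x y < N := fun h' => h2 ((dl_lt_iff h N).1 h')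
  omega

lemma dl_congr {a a' b b' k : ℕ} (ha : a / 2 ^ k = a' / 2 ^ k) (hb : b / 2 ^ k = b' / 2 ^ k)
    (h : a / 2 ^ k ≠ b / 2 ^ k) : dl a b = dl a' b' := by
  have h1 : a ≠ b := fun h' => h (by rw [h'])
  have h' : a' / 2 ^ k ≠ b' / 2 ^ k := by rw [← ha, ← hb]; exact h
  have h2 : a' ≠ b' := fun h'' => h' (by rw [h''])
  have key : ∀ N, dl a b < N ↔ dl a' b' < N := by
    intro N
    rw [dl_lt_iff h1, dl_lt_iff h2]
    rcases le_total N k with hN | hN
    · exact ⟨fun h3 => absurd (div_mono hN h3) h, fun h3 => absurd (div_mono hN h3) h'⟩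
    · rw [div_mono hN ha, div_mono hN hb]
  have h3 := (key (dl a b + 1)).1 (by omega)
  have h4 := (key (dl a' b' + 1)).2 (by omega)
  omega

/-- A comb with `m` teeth in `S`, indexed by its branching levels. -/
def Cb (o : Bool) (N m : ℕ) (S : Finset ℕ) : Prop :=
  ∃ (X : Finset ℕ) (w : ℕ → ℕ), X.card = m ∧ (∀ s ∈ X, s < N) ∧ (∀ s ∈ X, w s ∈ S) ∧
    ∀ s ∈ X, ∀ s' ∈ X, s < s' → dl (w s) (w s') = s' ∧ (if o then w s < w s' else w s' < w s)

/-- `C` disjoint cherries in `S`, in increasing order. -/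
def Cher (N C : ℕ) (S : Finset ℕ) : Prop :=
  ∃ z lv : ℕ → ℕ, (∀ a, a < 2 * C → z a ∈ S) ∧ (∀ a b, a < b → b < 2 * C → z a < z b) ∧
    (∀ u, lv u ≤ N) ∧ ∀ a b, a < 2 * C → b < 2 * C →
      (z a / 2 ^ lv (a / 2) = z b / 2 ^ lv (a / 2) ↔ a / 2 = b / 2)

lemma Cb.zero (o : Bool) (N : ℕ) (S : Finset ℕ) : Cb o N 0 S :=
  ⟨∅, id, rfl, by simp, by simp, by simp⟩

lemma Cb.mono {o : Bool} {N m : ℕ} {S T : Finset ℕ} (h : Cb o N m S) (hST : S ⊆ T) :
    Cb o (N + 1) m T := by
  obtain ⟨X, w, h1, h2, h3, h4⟩ := h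
  exact ⟨X, w, h1, fun s hs => (h2 s hs).trans (Nat.lt_succ_self _), fun s hs => hST (h3 s hs), h4⟩

lemma Cb.ext {o : Bool} {N m y : ℕ} {S T : Finset ℕ} (h : Cb o N m S) (hST : S ⊆ T) (hy : y ∈ T)
    (hd : ∀ x ∈ S, dl x y = N ∧ (if o then x < y else y < x)) : Cb o (N + 1) (m + 1) T := by
  obtain ⟨X, w, h1, h2, h3, h4⟩ := h
  have hN : N ∉ X := fun h => lt_irrefl _ (h2 N h)
  have hne : ∀ s ∈ X, s ≠ N := fun s hs => (h2 s hs).ne
  refine ⟨insert N X, fun s => if s = N then y else w s, by rw [card_insert_of_notMem hN, h1],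
    ?_, ?_, ?_⟩
  · intro s hs
    rcases mem_insert.1 hs with rfl | hs
    · omega
    · have := h2 s hs; omega
  · intro s hs
    rcases mem_insert.1 hs with rfl | hs
    · simpa using hy
    · simpa [hne s hs] using hST (h3 s hs)
  · intro s hs s' hs' hlt
    rcases mem_insert.1 hs with h5 | h5
    · rcases mem_insert.1 hs' with h6 | h6
      · omega
      · have := h2 s' h6; omega
    · rcases mem_insert.1 hs' with h6 | h6
      · simpa [hne s h5, h6] using hd _ (h3 s h5)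
      · simpa [hne s h5, hne s' h6] using h4 s h5 s' h6 hlt

lemma Cher.mono {N C C' : ℕ} {S T : Finset ℕ} (h : Cher N C S) (hST : S ⊆ T) (hC : C' ≤ C) :
    Cher (N + 1) C' T := by
  obtain ⟨z, lv, h1, h2, h3, h4⟩ := h
  exact ⟨z, lv, fun a ha => hST (h1 a (by omega)), fun a b hab hb => h2 a b hab (by omega),
    fun u => (h3 u).trans (Nat.le_succ _), fun a b ha hb => h4 a b (by omega) (by omega)⟩

lemma div_succ (x N : ℕ) : x / 2 ^ (N + 1) = x / 2 ^ N / 2 := by
  rw [pow_succ, Nat.div_div_eq_div_mul]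

lemma lt_of_div_lt {x y N : ℕ} (h : x / 2 ^ N < y / 2 ^ N) : x < y :=
  Nat.lt_of_div_lt_div h

lemma Cher.join {N C0 C1 C c : ℕ} {S0 S1 T : Finset ℕ} (h0 : Cher N C0 S0)
    (h1 : Cher N C1 S1) (hT0 : S0 ⊆ T) (hT1 : S1 ⊆ T) (hC : C ≤ C0 + C1)
    (hS0 : ∀ x ∈ S0, x / 2 ^ N = 2 * c) (hS1 : ∀ x ∈ S1, x / 2 ^ N = 2 * c + 1) :
    Cher (N + 1) C T := by
  obtain ⟨z0, l0, a1, a2, a3, a4⟩ := h0
  obtain ⟨z1, l1, b1, b2, b3, b4⟩ := h1
  refine ⟨fun a => if a < 2 * C0 then z0 a else z1 (a - 2 * C0),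
    fun u => if u < C0 then l0 u else l1 (u - C0), ?_, ?_, ?_, ?_⟩
  · intro a ha
    by_cases h : a < 2 * C0
    · simpa [h] using hT0 (a1 a h)
    · simpa [h] using hT1 (b1 _ (by omega))
  · intro a b hab hb
    by_cases h : a < 2 * C0 <;> by_cases h' : b < 2 * C0
    · simpa [h, h'] using a2 a b hab h'
    · have e1 := hS0 _ (a1 a h)
      have e2 := hS1 _ (b1 (b - 2 * C0) (by omega))
      simpa [h, h'] using lt_of_div_lt (N := N) (x := z0 a) (y := z1 (b - 2 * C0)) (by omega)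
    · omega
    · simpa [h, h'] using b2 (a - 2 * C0) (b - 2 * C0) (by omega) (by omega)
  · intro u
    by_cases h : u < C0
    · simpa [h] using (a3 u).trans (Nat.le_succ _)
    · simpa [h] using (b3 _).trans (Nat.le_succ _)
  · intro a b ha hb
    by_cases h : a < 2 * C0 <;> by_cases h' : b < 2 * C0
    · have h2 : a / 2 < C0 := by omega
      simpa [h, h', h2] using a4 a b h h'
    · have h2 : a / 2 < C0 := by omega
      have e1 := hS0 _ (a1 a h)
      have e2 := hS1 _ (b1 (b - 2 * C0) (by omega))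
      simp only [h, h', h2, if_true, if_false]
      refine ⟨fun h3 => ?_, fun h3 => by omega⟩
      have := div_mono (a3 _) h3
      omega
    · have h2 : ¬ a / 2 < C0 := by omega
      have e1 := hS0 _ (a1 b h')
      have e2 := hS1 _ (b1 (a - 2 * C0) (by omega))
      simp only [h, h', h2, if_true, if_false]
      refine ⟨fun h3 => ?_, fun h3 => by omega⟩
      have := div_mono (b3 _) h3
      omega
    · have h2 : ¬ a / 2 < C0 := by omega
      have e1 : (a - 2 * C0) / 2 = a / 2 - C0 := by omega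
      have e2 := b4 (a - 2 * C0) (b - 2 * C0) (by omega) (by omega)
      rw [e1] at e2
      simp only [h, h', h2, if_false]
      rw [e2]
      omega

/-- A large set contains a long comb or many cherries. -/
theorem forcing (N : ℕ) : ∀ (c a b C : ℕ) (S : Finset ℕ), (∀ x ∈ S, x / 2 ^ N = c) →
    2 ≤ S.card → C * (a + b) < S.card → Cb true N a S ∨ Cb false N b S ∨ Cher N (C + 1) S := by
  induction N with
  | zero =>
    intro c a b C S hS h2 _
    have h1 : S.card ≤ 1 := card_le_one.2 fun x hx y hy => by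
      have e1 := hS x hx
      have e2 := hS y hy
      simp at e1 e2
      omega
    omega
  | succ N ih =>
    intro c a b C S hS h2 hc
    rcases a with _ | a
    · exact Or.inl (Cb.zero _ _ _)
    rcases b with _ | b
    · exact Or.inr (Or.inl (Cb.zero _ _ _))
    set S0 := S.filter (fun x => x / 2 ^ N = 2 * c) with hS0
    set S1 := S.filter (fun x => ¬ x / 2 ^ N = 2 * c) with hS1
    have hsum : S0.card + S1.card = S.card := card_filter_add_card_filter_not _
    have m0 : ∀ x ∈ S0, x / 2 ^ N = 2 * c := fun x hx => (mem_filter.1 hx).2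
    have m1 : ∀ x ∈ S1, x / 2 ^ N = 2 * c + 1 := by
      intro x hx
      have e1 := (mem_filter.1 hx).2
      have e2 := hS x (mem_filter.1 hx).1
      rw [div_succ] at e2
      omega
    have s0 : S0 ⊆ S := filter_subset _ _
    have s1 : S1 ⊆ S := filter_subset _ _
    have hcross : ∀ x ∈ S0, ∀ y ∈ S1, dl x y = N ∧ x < y := by
      intro x hx y hy
      have e1 := m0 x hx
      have e2 := m1 y hy
      refine ⟨dl_eq ?_ (by omega), lt_of_div_lt (N := N) (by omega)⟩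
      rw [div_succ, div_succ]; omega
    have lift : ∀ (T : Finset ℕ), T ⊆ S →
        (Cb true N (a + 1) T ∨ Cb false N (b + 1) T ∨ Cher N (C + 1) T) →
        Cb true (N + 1) (a + 1) S ∨ Cb false (N + 1) (b + 1) S ∨ Cher (N + 1) (C + 1) S := by
      rintro T hT (h | h | h)
      · exact Or.inl (h.mono hT)
      · exact Or.inr (Or.inl (h.mono hT))
      · exact Or.inr (Or.inr (h.mono hT le_rfl))
    have e1 : C * (a + 1 + (b + 1)) = C * (a + (b + 1)) + C := by ring
    have e2 : C * (a + 1 + (b + 1)) = C * (a + 1 + b) + C := by ring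
    have e3 : 2 * C ≤ C * (a + 1 + (b + 1)) := by nlinarith
    by_cases c1 : 2 ≤ S1.card
    · by_cases c0 : 2 ≤ S0.card
      · have hw : 0 < a + 1 + (b + 1) := by omega
        have d0 := Nat.div_add_mod (S0.card - 1) (a + 1 + (b + 1))
        have d1 := Nat.div_add_mod (S1.card - 1) (a + 1 + (b + 1))
        have d2 := Nat.mod_lt (S0.card - 1) hw
        have d3 := Nat.mod_lt (S1.card - 1) hw
        rw [mul_comm] at d0 d1
        rcases ih _ (a + 1) (b + 1) ((S0.card - 1) / (a + 1 + (b + 1))) S0 m0 c0 (by omega)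
          with h | h | h
        · exact Or.inl (h.mono s0)
        · exact Or.inr (Or.inl (h.mono s0))
        rcases ih _ (a + 1) (b + 1) ((S1.card - 1) / (a + 1 + (b + 1))) S1 m1 c1 (by omega)
          with h' | h' | h'
        · exact Or.inl (h'.mono s1)
        · exact Or.inr (Or.inl (h'.mono s1))
        refine Or.inr (Or.inr (h.join h' s0 s1 ?_ m0 m1))
        refine Nat.lt_of_mul_lt_mul_right (a := a + 1 + (b + 1)) ?_
        rw [add_mul, add_mul ((S0.card - 1) / (a + 1 + (b + 1))),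
          add_mul ((S1.card - 1) / (a + 1 + (b + 1)))]
        omega
      · rcases S0.eq_empty_or_nonempty with h0 | ⟨y, hy⟩
        · refine lift S1 s1 (ih _ _ _ _ S1 m1 c1 ?_)
          rw [h0, card_empty] at hsum
          omega
        · rcases ih _ (a + 1) b C S1 m1 c1 (by
            rcases Nat.eq_zero_or_pos C with h | h
            · rw [h]; omega
            · omega) with h | h | h
          · exact Or.inl (h.mono s1)
          · refine Or.inr (Or.inl (h.ext s1 (s0 hy) fun x hx => ?_))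
            have := hcross y hy x hx
            rw [dl_comm]
            simpa using this
          · exact Or.inr (Or.inr (h.mono s1 le_rfl))
    · rcases S1.eq_empty_or_nonempty with h0 | ⟨y, hy⟩
      · rw [h0, card_empty] at hsum
        exact lift S0 s0 (ih _ _ _ _ S0 m0 (by omega) (by omega))
      · by_cases c0 : 2 ≤ S0.card
        · rcases ih _ a (b + 1) C S0 m0 c0 (by
            rcases Nat.eq_zero_or_pos C with h | h
            · rw [h]; omega
            · omega) with h | h | h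
          · refine Or.inl (h.ext s0 (s1 hy) fun x hx => ?_)
            simpa using hcross x hx y hy
          · exact Or.inr (Or.inl (h.mono s0))
          · exact Or.inr (Or.inr (h.mono s0 le_rfl))
        · obtain ⟨x, hx⟩ : S0.Nonempty := card_pos.1 (by omega)
          have hC : C = 0 := by omega
          subst hC
          refine Or.inr (Or.inr ⟨fun a => if a = 0 then x else y, fun _ => N + 1, ?_, ?_,
            fun _ => le_rfl, ?_⟩)
          · intro a _
            by_cases h : a = 0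
            · simpa [h] using s0 hx
            · simpa [h] using s1 hy
          · intro a b hab hb
            have h3 : a = 0 := by omega
            have h4 : b = 1 := by omega
            simpa [h3, h4] using (hcross x hx y hy).2
          · intro a b ha hb
            have h3 := hS x (s0 hx)
            have h4 := hS y (s1 hy)
            refine ⟨fun _ => by omega, fun _ => ?_⟩
            by_cases h : a = 0 <;> by_cases h' : b = 0 <;> simp [h, h', h3, h4]

end Pool.Agent.MP_53fe41_co.h78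

end MrgPart0

-- ======== part 1: formerly Pool.Agent.MP_53fe41_co.h78.Step
section MrgPart1

/-! The stepping-up predicate and its behaviour on a hidden family of cherries. -/

namespace Pool.Agent.MP_53fe41_co.h78

open Finset

/-- The number of elements of `I` below `a`. -/
def rk (I : Finset ℕ) (a : ℕ) : ℕ := (I.filter (· < a)).card

/-- The elements of ranks `q - 2, ..., q + 2` of `I` satisfy `R`. -/
def Five (R : ℕ → ℕ → ℕ → ℕ → ℕ → Prop) (q : ℕ) (I : Finset ℕ) : Prop :=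
  ∃ a ∈ I, ∃ b ∈ I, ∃ c ∈ I, ∃ d ∈ I, ∃ e ∈ I, rk I a + 2 = q ∧ rk I b + 1 = q ∧ rk I c = q ∧
    rk I d = q + 1 ∧ rk I e = q + 2 ∧ R a b c d e

lemma rk_mono (I : Finset ℕ) {a b : ℕ} (h : a ≤ b) : rk I a ≤ rk I b :=
  card_le_card fun x hx => by
    simp only [mem_filter] at hx ⊢
    exact ⟨hx.1, by omega⟩

lemma lt_of_rk_lt {I : Finset ℕ} {a b : ℕ} (h : rk I a < rk I b) : a < b := by
  by_contra h'
  have := rk_mono I (not_lt.1 h')
  omega

lemma rk_image {I : Finset ℕ} {f : ℕ → ℕ} (hf : ∀ a ∈ I, ∀ b ∈ I, a < b → f a < f b)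
    {a : ℕ} (ha : a ∈ I) : rk (I.image f) (f a) = rk I a := by
  have hm : StrictMonoOn f I := fun a ha b hb h => hf a ha b hb h
  have : (I.image f).filter (· < f a) = (I.filter (· < a)).image f := by
    ext y
    simp only [mem_filter, mem_image]
    constructor
    · rintro ⟨⟨x, hx, rfl⟩, h⟩
      exact ⟨x, ⟨hx, (hm.lt_iff_lt hx ha).1 h⟩, rfl⟩
    · rintro ⟨x, ⟨hx, h⟩, rfl⟩
      exact ⟨⟨x, hx, rfl⟩, hf x hx a ha h⟩
  unfold rk
  rw [this, card_image_of_injOn (hm.injOn.mono (by intro x hx; exact (mem_filter.1 hx).1))]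

lemma rk_lt {I : Finset ℕ} {a b : ℕ} (ha : a ∈ I) (h : a < b) : rk I a < rk I b := by
  refine card_lt_card ⟨fun x hx => ?_, fun hc => ?_⟩
  · simp only [mem_filter] at hx ⊢
    exact ⟨hx.1, by omega⟩
  · have := hc (mem_filter.2 ⟨ha, h⟩)
    simp at this

lemma rk_inj {I : Finset ℕ} {a b : ℕ} (ha : a ∈ I) (hb : b ∈ I) (h : rk I a = rk I b) :
    a = b := by
  rcases lt_trichotomy a b with h' | h' | h'
  · have := rk_lt ha h'; omega
  · exact h'
  · have := rk_lt hb h'; omega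

lemma five_image {R : ℕ → ℕ → ℕ → ℕ → ℕ → Prop} {I : Finset ℕ} {f : ℕ → ℕ} {q : ℕ}
    (hf : ∀ a ∈ I, ∀ b ∈ I, a < b → f a < f b) :
    Five R q (I.image f) ↔ Five (fun a b c d e => R (f a) (f b) (f c) (f d) (f e)) q I := by
  constructor
  · rintro ⟨a, ha, b, hb, c, hc, d, hd, e, he, h1, h2, h3, h4, h5, h6⟩
    obtain ⟨a, ha', rfl⟩ := mem_image.1 ha
    obtain ⟨b, hb', rfl⟩ := mem_image.1 hb
    obtain ⟨c, hc', rfl⟩ := mem_image.1 hc
    obtain ⟨d, hd', rfl⟩ := mem_image.1 hd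
    obtain ⟨e, he', rfl⟩ := mem_image.1 he
    rw [rk_image hf ha'] at h1
    rw [rk_image hf hb'] at h2
    rw [rk_image hf hc'] at h3
    rw [rk_image hf hd'] at h4
    rw [rk_image hf he'] at h5
    exact ⟨a, ha', b, hb', c, hc', d, hd', e, he', h1, h2, h3, h4, h5, h6⟩
  · rintro ⟨a, ha, b, hb, c, hc, d, hd, e, he, h1, h2, h3, h4, h5, h6⟩
    exact ⟨f a, mem_image_of_mem _ ha, f b, mem_image_of_mem _ hb, f c, mem_image_of_mem _ hc,
      f d, mem_image_of_mem _ hd, f e, mem_image_of_mem _ he,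
      by rw [rk_image hf ha, h1], by rw [rk_image hf hb, h2], by rw [rk_image hf hc, h3],
      by rw [rk_image hf hd, h4], by rw [rk_image hf he, h5], h6⟩

lemma Five.imp {R R' : ℕ → ℕ → ℕ → ℕ → ℕ → Prop} {I : Finset ℕ} {q : ℕ} (h : Five R q I)
    (hR : ∀ a ∈ I, ∀ b ∈ I, ∀ c ∈ I, ∀ d ∈ I, ∀ e ∈ I, a < b → b < c → c < d → d < e →
      R a b c d e → R' a b c d e) : Five R' q I := by
  obtain ⟨a, ha, b, hb, c, hc, d, hd, e, he, h1, h2, h3, h4, h5, h6⟩ := h
  exact ⟨a, ha, b, hb, c, hc, d, hd, e, he, h1, h2, h3, h4, h5,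
    hR a ha b hb c hc d hd e he (lt_of_rk_lt (I := I) (by omega))
      (lt_of_rk_lt (I := I) (by omega)) (lt_of_rk_lt (I := I) (by omega))
      (lt_of_rk_lt (I := I) (by omega)) h6⟩

lemma Five.and {R R' : ℕ → ℕ → ℕ → ℕ → ℕ → Prop} {I : Finset ℕ} {q : ℕ} (h : Five R q I)
    (h' : Five R' q I) : Five (fun a b c d e => R a b c d e ∧ R' a b c d e) q I := by
  obtain ⟨a, ha, b, hb, c, hc, d, hd, e, he, h1, h2, h3, h4, h5, h6⟩ := h
  obtain ⟨a', ha', b', hb', c', hc', d', hd', e', he', g1, g2, g3, g4, g5, g6⟩ := h'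
  obtain rfl := rk_inj ha ha' (by omega)
  obtain rfl := rk_inj hb hb' (by omega)
  obtain rfl := rk_inj hc hc' (by omega)
  obtain rfl := rk_inj hd hd' (by omega)
  obtain rfl := rk_inj he he' (by omega)
  exact ⟨a, ha, b, hb, c, hc, d, hd, e, he, h1, h2, h3, h4, h5, h6, g6⟩

/-- `I` without its least and its largest element. -/
def trim (I : Finset ℕ) : Finset ℕ := I.filter fun x => (∃ y ∈ I, y < x) ∧ ∃ y ∈ I, x < y

lemma trim_eq {I : Finset ℕ} (h : I.Nonempty) :
    trim I = (I.erase (I.min' h)).erase (I.max' h) := by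
  ext x
  simp only [trim, mem_filter, mem_erase]
  constructor
  · rintro ⟨hx, ⟨y, hy, h1⟩, z, hz, h2⟩
    have := I.min'_le y hy
    have := I.le_max' z hz
    exact ⟨by omega, by omega, hx⟩
  · rintro ⟨h1, h2, hx⟩
    have := I.min'_le x hx
    have := I.le_max' x hx
    exact ⟨hx, ⟨_, I.min'_mem h, by omega⟩, _, I.max'_mem h, by omega⟩

lemma card_trim (I : Finset ℕ) : I.card ≤ (trim I).card + 2 := by
  rcases I.eq_empty_or_nonempty with rfl | h
  · simp
  rw [trim_eq h]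
  have h1 := pred_card_le_card_erase (s := I) (a := I.min' h)
  have h2 := pred_card_le_card_erase (s := I.erase (I.min' h)) (a := I.max' h)
  omega

lemma rk_trim {I : Finset ℕ} {x : ℕ} (hx : x ∈ trim I) : rk (trim I) x + 1 = rk I x := by
  obtain ⟨hxI, ⟨y, hy, h1⟩, z, hz, h2⟩ := mem_filter.1 hx
  have h : I.Nonempty := ⟨x, hxI⟩
  have e1 := I.min'_le y hy
  have e2 := I.le_max' z hz
  have : (trim I).filter (· < x) = (I.filter (· < x)).erase (I.min' h) := by
    ext u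
    simp only [trim_eq h, mem_filter, mem_erase]
    constructor
    · rintro ⟨⟨_, h4, h5⟩, h6⟩
      exact ⟨h4, h5, h6⟩
    · rintro ⟨h4, h5, h6⟩
      exact ⟨⟨by omega, h4, h5⟩, h6⟩
  unfold rk
  rw [this, card_erase_add_one (mem_filter.2 ⟨I.min'_mem h, by omega⟩)]

lemma mem_trim {I : Finset ℕ} {x : ℕ} (hx : x ∈ I) (h1 : 0 < rk I x) (h2 : rk I x + 1 < I.card) :
    x ∈ trim I := by
  refine mem_filter.2 ⟨hx, ?_, ?_⟩
  · obtain ⟨y, hy⟩ := card_pos.1 h1
    exact ⟨y, (mem_filter.1 hy).1, (mem_filter.1 hy).2⟩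
  · by_contra hc
    push Not at hc
    have : I ⊆ insert x (I.filter (· < x)) := by
      intro y hy
      have := hc y hy
      simp only [mem_insert, mem_filter]
      rcases Nat.eq_or_lt_of_le this with h | h
      · exact Or.inl h
      · exact Or.inr ⟨hy, h⟩
    have h3 := (card_le_card this).trans (card_insert_le _ _)
    unfold rk at h2
    omega

lemma five_trim {R : ℕ → ℕ → ℕ → ℕ → ℕ → Prop} {I : Finset ℕ} {q : ℕ} (h2 : 2 ≤ q)
    (hq : q + 4 < I.card) : Five R q (trim I) ↔ Five R (q + 1) I := by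
  constructor
  · rintro ⟨a, ha, b, hb, c, hc, d, hd, e, he, h1, h2, h3, h4, h5, h6⟩
    have e1 := rk_trim ha
    have e2 := rk_trim hb
    have e3 := rk_trim hc
    have e4 := rk_trim hd
    have e5 := rk_trim he
    exact ⟨a, (mem_filter.1 ha).1, b, (mem_filter.1 hb).1, c, (mem_filter.1 hc).1,
      d, (mem_filter.1 hd).1, e, (mem_filter.1 he).1, by omega, by omega, by omega, by omega,
      by omega, h6⟩
  · rintro ⟨a, ha, b, hb, c, hc, d, hd, e, he, h1, h2, h3, h4, h5, h6⟩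
    have ha' := mem_trim ha (by omega) (by omega)
    have hb' := mem_trim hb (by omega) (by omega)
    have hc' := mem_trim hc (by omega) (by omega)
    have hd' := mem_trim hd (by omega) (by omega)
    have he' := mem_trim he (by omega) (by omega)
    have e1 := rk_trim ha'
    have e2 := rk_trim hb'
    have e3 := rk_trim hc'
    have e4 := rk_trim hd'
    have e5 := rk_trim he'
    exact ⟨a, ha', b, hb', c, hc', d, hd', e, he', by omega, by omega, by omega, by omega,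
      by omega, h6⟩

/-- All triples branch to the same side. -/
def IsComb (U : Finset ℕ) : Prop :=
  (∀ a ∈ U, ∀ b ∈ U, ∀ c ∈ U, a < b → b < c → dl a b < dl a c) ∨
    ∀ a ∈ U, ∀ b ∈ U, ∀ c ∈ U, a < b → b < c → dl b c < dl a c

/-- The branching levels of `U`. -/
def Dl (U : Finset ℕ) : Finset ℕ := U.offDiag.image fun p => dl p.1 p.2

/-- `X` without its largest element. -/
def rmax (X : Finset ℕ) : Finset ℕ := X.filter fun x => ∃ y ∈ X, x < y

/-- The first triple branches to the left and the last triple to the right. -/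
def Tp (a b c d e : ℕ) : Prop := dl a b < dl a c ∧ dl d e < dl c e

/-- The first two and the last two points are twins. -/
def St (a b _c d e : ℕ) : Prop := a / 2 = b / 2 ∧ d / 2 = e / 2

/-- The second and the fourth point have a twin among their neighbours. -/
def Gd (a b c d e : ℕ) : Prop := (a / 2 = b / 2 ∨ b / 2 = c / 2) ∧ (c / 2 = d / 2 ∨ d / 2 = e / 2)

/-- The stepping-up predicate. -/
def Phi : ℕ → ℕ → Finset ℕ → Prop
  | 0, _, _ => False
  | j + 1, q, U => (IsComb U ∧ Phi j (q - 1) (rmax (Dl U))) ∨ (¬ IsComb U ∧ Five Tp q U)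

lemma phi_imp {I : Finset ℕ} {f g : ℕ → ℕ} (hf : ∀ a ∈ I, ∀ b ∈ I, a < b → f a < f b)
    (hg : ∀ a ∈ I, ∀ b ∈ I, a < b → g a < g b)
    (hd : ∀ a ∈ I, ∀ b ∈ I, a < b → dl (f a) (f b) = dl (g a) (g b)) :
    (IsComb (I.image f) → IsComb (I.image g)) ∧ Dl (I.image f) ⊆ Dl (I.image g) ∧
      ∀ q, Five Tp q (I.image f) → Five Tp q (I.image g) := by
  have hm : StrictMonoOn g I := fun a ha b hb h => hg a ha b hb h
  refine ⟨?_, ?_, ?_⟩
  · rintro (h | h)
    · refine Or.inl fun a ha b hb c hc hab hbc => ?_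
      obtain ⟨a, ha', rfl⟩ := mem_image.1 ha
      obtain ⟨b, hb', rfl⟩ := mem_image.1 hb
      obtain ⟨c, hc', rfl⟩ := mem_image.1 hc
      have e1 := (hm.lt_iff_lt ha' hb').1 hab
      have e2 := (hm.lt_iff_lt hb' hc').1 hbc
      rw [← hd a ha' b hb' e1, ← hd a ha' c hc' (e1.trans e2)]
      exact h _ (mem_image_of_mem _ ha') _ (mem_image_of_mem _ hb') _ (mem_image_of_mem _ hc')
        (hf a ha' b hb' e1) (hf b hb' c hc' e2)
    · refine Or.inr fun a ha b hb c hc hab hbc => ?_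
      obtain ⟨a, ha', rfl⟩ := mem_image.1 ha
      obtain ⟨b, hb', rfl⟩ := mem_image.1 hb
      obtain ⟨c, hc', rfl⟩ := mem_image.1 hc
      have e1 := (hm.lt_iff_lt ha' hb').1 hab
      have e2 := (hm.lt_iff_lt hb' hc').1 hbc
      rw [← hd b hb' c hc' e2, ← hd a ha' c hc' (e1.trans e2)]
      exact h _ (mem_image_of_mem _ ha') _ (mem_image_of_mem _ hb') _ (mem_image_of_mem _ hc')
        (hf a ha' b hb' e1) (hf b hb' c hc' e2)
  · intro x hx
    simp only [Dl, mem_image, mem_offDiag] at hx ⊢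
    obtain ⟨⟨u, v⟩, ⟨⟨a, ha, rfl⟩, ⟨b, hb, rfl⟩, hne⟩, rfl⟩ := hx
    have h : a ≠ b := fun h => hne (by rw [h])
    rcases lt_or_gt_of_ne h with h | h
    · exact ⟨(g a, g b), ⟨⟨a, ha, rfl⟩, ⟨b, hb, rfl⟩, (hg a ha b hb h).ne⟩, (hd a ha b hb h).symm⟩
    · exact ⟨(g b, g a), ⟨⟨b, hb, rfl⟩, ⟨a, ha, rfl⟩, (hg b hb a ha h).ne⟩,
        by rw [dl_comm (f a)]; exact (hd b hb a ha h).symm⟩
  · intro q h
    rw [five_image hf] at h
    rw [five_image hg]
    refine h.imp fun a ha b hb c hc d hd' e he h1 h2 h3 h4 h5 => ?_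
    unfold Tp at h5 ⊢
    rw [← hd a ha b hb h1, ← hd a ha c hc (h1.trans h2), ← hd d hd' e he h4,
      ← hd c hc e he (h3.trans h4)]
    exact h5

lemma phi_iso {I : Finset ℕ} {f g : ℕ → ℕ} (hf : ∀ a ∈ I, ∀ b ∈ I, a < b → f a < f b)
    (hg : ∀ a ∈ I, ∀ b ∈ I, a < b → g a < g b)
    (hd : ∀ a ∈ I, ∀ b ∈ I, a < b → dl (f a) (f b) = dl (g a) (g b)) (j q : ℕ) :
    Phi (j + 1) q (I.image f) ↔ Phi (j + 1) q (I.image g) := by
  obtain ⟨h1, h2, h3⟩ := phi_imp hf hg hd
  obtain ⟨g1, g2, g3⟩ := phi_imp hg hf fun a ha b hb h => (hd a ha b hb h).symm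
  rw [Phi, Phi, h2.antisymm g2, show IsComb (I.image f) ↔ IsComb (I.image g) from ⟨h1, g1⟩,
    show Five Tp q (I.image f) ↔ Five Tp q (I.image g) from ⟨h3 q, g3 q⟩]

/-- `z` is strictly increasing or strictly decreasing below `M`. -/
def Mono2 (M : ℕ) (z : ℕ → ℕ) : Prop :=
  (∀ a b, a < b → b < M → z a < z b) ∨ ∀ a b, a < b → b < M → z b < z a

lemma trim_image {z : ℕ → ℕ} {I : Finset ℕ} (hz : StrictMonoOn z I ∨ StrictAntiOn z I) :
    trim (I.image z) = (trim I).image z := by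
  ext y
  simp only [trim, mem_filter, mem_image]
  rcases hz with hm | hm
  · constructor
    · rintro ⟨⟨x, hx, rfl⟩, ⟨_, ⟨u, hu, rfl⟩, h1⟩, _, ⟨v, hv, rfl⟩, h2⟩
      exact ⟨x, ⟨hx, ⟨u, hu, (hm.lt_iff_lt hu hx).1 h1⟩, v, hv, (hm.lt_iff_lt hx hv).1 h2⟩, rfl⟩
    · rintro ⟨x, ⟨hx, ⟨u, hu, h1⟩, v, hv, h2⟩, rfl⟩
      exact ⟨⟨x, hx, rfl⟩, ⟨_, ⟨u, hu, rfl⟩, hm hu hx h1⟩, _, ⟨v, hv, rfl⟩, hm hx hv h2⟩
  · constructor
    · rintro ⟨⟨x, hx, rfl⟩, ⟨_, ⟨u, hu, rfl⟩, h1⟩, _, ⟨v, hv, rfl⟩, h2⟩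
      exact ⟨x, ⟨hx, ⟨v, hv, (hm.lt_iff_gt hx hv).1 h2⟩, u, hu, (hm.lt_iff_gt hu hx).1 h1⟩, rfl⟩
    · rintro ⟨x, ⟨hx, ⟨u, hu, h1⟩, v, hv, h2⟩, rfl⟩
      exact ⟨⟨x, hx, rfl⟩, ⟨_, ⟨v, hv, rfl⟩, hm hx hv h2⟩, _, ⟨u, hu, rfl⟩, hm hu hx h1⟩

lemma Mono2.on {M : ℕ} {z : ℕ → ℕ} (hz : Mono2 M z) {I : Finset ℕ} (hI : ∀ a ∈ I, a < M) :
    StrictMonoOn z I ∨ StrictAntiOn z I :=
  hz.imp (fun h a _ b hb hab => h a b hab (hI b hb)) fun h a _ b hb hab => h a b hab (hI b hb)

lemma comb_step {o : Bool} {X : Finset ℕ} {w : ℕ → ℕ}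
    (hw : ∀ s ∈ X, ∀ s' ∈ X, s < s' →
      dl (w s) (w s') = s' ∧ (if o then w s < w s' else w s' < w s)) :
    IsComb (X.image w) ∧ rmax (Dl (X.image w)) = trim X := by
  have hmax : ∀ s ∈ X, ∀ s' ∈ X, s ≠ s' → dl (w s) (w s') = max s s' ∧ w s ≠ w s' := by
    intro s hs s' hs' h
    rcases lt_or_gt_of_ne h with h | h
    · have := hw s hs s' hs' h
      refine ⟨by rw [this.1]; omega, ?_⟩
      cases o <;> simp at this <;> omega
    · have := hw s' hs' s hs h
      refine ⟨by rw [dl_comm, this.1]; omega, ?_⟩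
      cases o <;> simp at this <;> omega
  have hD : ∀ x, x ∈ Dl (X.image w) ↔ x ∈ X ∧ ∃ y ∈ X, y < x := by
    intro x
    simp only [Dl, mem_image, mem_offDiag]
    constructor
    · rintro ⟨⟨a, b⟩, ⟨⟨s, hs, rfl⟩, ⟨s', hs', rfl⟩, hne⟩, rfl⟩
      have h : s ≠ s' := fun h => hne (by rw [h])
      simp only [(hmax s hs s' hs' h).1]
      rcases lt_or_gt_of_ne h with h | h
      · rw [max_eq_right h.le]; exact ⟨hs', s, hs, h⟩
      · rw [max_eq_left h.le]; exact ⟨hs, s', hs', h⟩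
    · rintro ⟨hx, y, hy, h⟩
      exact ⟨(w y, w x), ⟨⟨y, hy, rfl⟩, ⟨x, hx, rfl⟩, (hmax y hy x hx h.ne).2⟩,
        (hw y hy x hx h).1⟩
  constructor
  · cases o
    · have hm : StrictAntiOn w X := fun a ha b hb h => by simpa using (hw a ha b hb h).2
      refine Or.inr fun a ha b hb c hc hab hbc => ?_
      obtain ⟨a, ha', rfl⟩ := mem_image.1 ha
      obtain ⟨b, hb', rfl⟩ := mem_image.1 hb
      obtain ⟨c, hc', rfl⟩ := mem_image.1 hc
      have e1 := (hm.lt_iff_gt ha' hb').1 hab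
      have e2 := (hm.lt_iff_gt hb' hc').1 hbc
      rw [(hmax b hb' c hc' (by omega)).1, (hmax a ha' c hc' (by omega)).1]
      omega
    · have hm : StrictMonoOn w X := fun a ha b hb h => by simpa using (hw a ha b hb h).2
      refine Or.inl fun a ha b hb c hc hab hbc => ?_
      obtain ⟨a, ha', rfl⟩ := mem_image.1 ha
      obtain ⟨b, hb', rfl⟩ := mem_image.1 hb
      obtain ⟨c, hc', rfl⟩ := mem_image.1 hc
      have e1 := (hm.lt_iff_lt ha' hb').1 hab
      have e2 := (hm.lt_iff_lt hb' hc').1 hbc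
      rw [(hmax a ha' b hb' (by omega)).1, (hmax a ha' c hc' (by omega)).1]
      omega
  · ext x
    simp only [rmax, trim, mem_filter, hD]
    constructor
    · rintro ⟨⟨h1, h2⟩, y, ⟨hy, _⟩, h3⟩
      exact ⟨h1, h2, y, hy, h3⟩
    · rintro ⟨h1, h2, y, hy, h3⟩
      exact ⟨⟨h1, h2⟩, y, ⟨hy, x, h1, h3⟩, h3⟩

/-- The size that forces the hidden cherries. -/
def mm (C N : ℕ) : ℕ → ℕ
  | 0 => N
  | j + 1 => C * (mm C N j + 1 + (mm C N j + 1)) + 1

/-- The two properties of the hidden cherries. -/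
def Hid (M j : ℕ) (z : ℕ → ℕ) : Prop :=
  (∀ (q : ℕ) (I : Finset ℕ) (f : ℕ → ℕ), (∀ a ∈ I, a < M) → (∀ a ∈ I, f a < M) →
    (∀ a ∈ I, ∀ b ∈ I, a < b → f a < f b) → (∀ a ∈ I, f a / 2 = a / 2) →
    (Phi j q ((I.image f).image z) ↔ Phi j q (I.image z))) ∧
  ∀ (q : ℕ) (I : Finset ℕ), (∀ a ∈ I, a < M) → Five Gd q I → j + 1 ≤ q → q + 3 + j ≤ I.card →
    (Phi j q (I.image z) ↔ Five St q I)

theorem hidden (C N : ℕ) : ∀ (j : ℕ) (S : Finset ℕ), (∀ x ∈ S, x < (fun x => 2 ^ x)^[j] N) →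
    mm C N j < S.card → ∃ z : ℕ → ℕ, 0 < j ∧ (∀ a, a < 2 * (C + 1) → z a ∈ S) ∧
      Mono2 (2 * (C + 1)) z ∧ Hid (2 * (C + 1)) j z := by
  intro j
  induction j with
  | zero =>
    intro S hS hc
    have : S.card ≤ (range N).card := card_le_card fun x hx => by simpa using hS x hx
    simp [mm] at this hc
    omega
  | succ j ih =>
    intro S hS hc
    rw [Function.iterate_succ_apply'] at hS
    have comb : ∀ o : Bool, Cb o ((fun x => 2 ^ x)^[j] N) (mm C N j + 1) S →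
        ∃ z : ℕ → ℕ, 0 < j + 1 ∧ (∀ a, a < 2 * (C + 1) → z a ∈ S) ∧
          Mono2 (2 * (C + 1)) z ∧ Hid (2 * (C + 1)) (j + 1) z := by
      rintro o ⟨X, w, h1, h2, h3, h4⟩
      obtain ⟨z, hr, hz1, hz2, hz3, hz4⟩ := ih X h2 (by omega)
      have key : ∀ (q : ℕ) (I : Finset ℕ), (∀ a ∈ I, a < 2 * (C + 1)) →
          (Phi (j + 1) q (I.image (w ∘ z)) ↔ Phi j (q - 1) ((trim I).image z)) := by
        intro q I hI
        have hsub : ∀ s ∈ I.image z, s ∈ X := by
          intro s hs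
          obtain ⟨a, ha, rfl⟩ := mem_image.1 hs
          exact hz1 a (hI a ha)
        obtain ⟨k1, k2⟩ := comb_step (o := o) (X := I.image z) (w := w)
          fun s hs s' hs' h => h4 s (hsub s hs) s' (hsub s' hs') h
        rw [← image_image, Phi, k2, trim_image (hz2.on hI)]
        simp [k1]
      refine ⟨w ∘ z, by omega, fun a ha => h3 _ (hz1 a ha), ?_, ?_, ?_⟩
      · rcases hz2 with hz | hz <;> cases o
        · exact Or.inr fun a b hab hb => by
            simpa using (h4 _ (hz1 a (by omega)) _ (hz1 b hb) (hz a b hab hb)).2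
        · exact Or.inl fun a b hab hb => by
            simpa using (h4 _ (hz1 a (by omega)) _ (hz1 b hb) (hz a b hab hb)).2
        · exact Or.inl fun a b hab hb => by
            simpa using (h4 _ (hz1 b hb) _ (hz1 a (by omega)) (hz a b hab hb)).2
        · exact Or.inr fun a b hab hb => by
            simpa using (h4 _ (hz1 b hb) _ (hz1 a (by omega)) (hz a b hab hb)).2
      · intro q I f hI hfI hf hf2
        have ht : ∀ a ∈ trim I, a ∈ I := fun a ha => (mem_filter.1 ha).1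
        rw [key q I hI, key q (I.image f) (by
          intro a ha
          obtain ⟨b, hb, rfl⟩ := mem_image.1 ha
          exact hfI b hb), trim_image (Or.inl fun a ha b hb h => hf a ha b hb h)]
        exact hz3 _ _ f (fun a ha => hI a (ht a ha)) (fun a ha => hfI a (ht a ha))
          (fun a ha b hb => hf a (ht a ha) b (ht b hb)) fun a ha => hf2 a (ht a ha)
      · intro q I hI hG c2 c3
        have ct := card_trim I
        obtain ⟨q, rfl⟩ : ∃ q', q = q' + 1 := ⟨q - 1, by omega⟩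
        rw [key _ I hI, Nat.add_sub_cancel,
          hz4 q (trim I) (fun a ha => hI a (mem_filter.1 ha).1)
            ((five_trim (by omega) (by omega)).2 hG) (by omega) (by omega),
          five_trim (by omega) (by omega)]
    rw [mm] at hc
    rcases forcing ((fun x => 2 ^ x)^[j] N) 0 (mm C N j + 1) (mm C N j + 1) C S
      (fun x hx => Nat.div_eq_of_lt (hS x hx)) (by omega) (by omega)
      with h | h | ⟨z, lv, h1, h2, -, h3⟩
    · exact comb true h
    · exact comb false h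
    have hcg : ∀ a a' b, a < 2 * (C + 1) → a' < 2 * (C + 1) → b < 2 * (C + 1) →
        a / 2 = a' / 2 → a / 2 ≠ b / 2 → dl (z a) (z b) = dl (z a') (z b) :=
      fun a a' b ha ha' hb e1 e2 =>
        dl_congr ((h3 a a' ha ha').2 e1) rfl fun h => e2 ((h3 a b ha hb).1 h)
    have hlt : ∀ a a' b, a < 2 * (C + 1) → a' < 2 * (C + 1) → b < 2 * (C + 1) → a ≠ a' →
        a / 2 = a' / 2 → a / 2 ≠ b / 2 → dl (z a) (z a') < dl (z a) (z b) := by
      intro a a' b ha ha' hb e0 e1 e2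
      have n1 : z a ≠ z a' := by
        rcases lt_or_gt_of_ne e0 with h | h
        · exact (h2 a a' h ha').ne
        · exact (h2 a' a h ha).ne'
      have n2 : z a ≠ z b := fun h => e2 ((h3 a b ha hb).1 (by rw [h]))
      have e3 := (dl_lt_iff n1 _).2 ((h3 a a' ha ha').2 e1)
      have e4 : ¬ dl (z a) (z b) < lv (a / 2) := fun h =>
        e2 ((h3 a b ha hb).1 ((dl_lt_iff n2 _).1 h))
      omega
    refine ⟨z, by omega, h1, Or.inl h2, ?_, ?_⟩
    · intro q I f hI hfI hf hf2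
      rw [image_image]
      refine phi_iso (fun a ha b hb h => h2 _ _ (hf a ha b hb h) (hfI b hb))
        (fun a _ b hb h => h2 _ _ h (hI b hb)) (fun a ha b hb h => ?_) j q
      have e1 := hf a ha b hb h
      have e2 := hf2 a ha
      have e3 := hf2 b hb
      by_cases e4 : a / 2 = b / 2
      · have e5 : f a = a := by omega
        have e6 : f b = b := by omega
        simp [e5, e6]
      · show dl (z (f a)) (z (f b)) = _
        rw [hcg (f a) a (f b) (hfI a ha) (hI a ha) (hfI b hb) e2 (by omega), dl_comm,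
          hcg (f b) b a (hfI b hb) (hI b hb) (hI a ha) e3 (by omega), dl_comm]
    · intro q I hI hG c2 c3
      have hm : ∀ a ∈ I, ∀ b ∈ I, a < b → z a < z b := fun a _ b hb hab => h2 a b hab (hI b hb)
      have nL : ∀ a ∈ I, ∀ b ∈ I, ∀ c ∈ I, a < b → b < c → b / 2 = c / 2 →
          ¬ dl (z a) (z b) < dl (z a) (z c) := by
        intro a ha b hb c hc h5 h6 h7
        rw [dl_comm (z a), dl_comm (z a),
          hcg b c a (hI b hb) (hI c hc) (hI a ha) h7 (by omega)]
        exact lt_irrefl _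
      have nR : ∀ a ∈ I, ∀ b ∈ I, ∀ c ∈ I, a < b → b < c → a / 2 = b / 2 →
          ¬ dl (z b) (z c) < dl (z a) (z c) := by
        intro a ha b hb c hc h5 h6 h7
        rw [hcg a b c (hI a ha) (hI b hb) (hI c hc) h7 (by omega)]
        exact lt_irrefl _
      have hnc : ¬ IsComb (I.image z) := by
        obtain ⟨a, ha, b, hb, c, hc, d, hd, e, he, g1, g2, g3, g4, g5, g6, g7⟩ := hG
        have l1 : a < b := lt_of_rk_lt (I := I) (by omega)
        have l2 : b < c := lt_of_rk_lt (I := I) (by omega)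
        have l3 : c < d := lt_of_rk_lt (I := I) (by omega)
        have l4 : d < e := lt_of_rk_lt (I := I) (by omega)
        rintro (hcb | hcb)
        · rcases g7 with g | g
          · exact nL b hb c hc d hd l2 l3 g (hcb _ (mem_image_of_mem _ hb) _
              (mem_image_of_mem _ hc) _ (mem_image_of_mem _ hd) (hm b hb c hc l2)
              (hm c hc d hd l3))
          · exact nL c hc d hd e he l3 l4 g (hcb _ (mem_image_of_mem _ hc) _
              (mem_image_of_mem _ hd) _ (mem_image_of_mem _ he) (hm c hc d hd l3)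
              (hm d hd e he l4))
        · rcases g6 with g | g
          · exact nR a ha b hb c hc l1 l2 g (hcb _ (mem_image_of_mem _ ha) _
              (mem_image_of_mem _ hb) _ (mem_image_of_mem _ hc) (hm a ha b hb l1)
              (hm b hb c hc l2))
          · exact nR b hb c hc d hd l2 l3 g (hcb _ (mem_image_of_mem _ hb) _
              (mem_image_of_mem _ hc) _ (mem_image_of_mem _ hd) (hm b hb c hc l2)
              (hm c hc d hd l3))
      rw [Phi, five_image hm]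
      simp only [hnc, false_and, not_false_eq_true, true_and, false_or]
      constructor
      · intro h
        refine (h.and hG).imp fun a ha b hb c hc d hd e he l1 l2 l3 l4 g => ?_
        obtain ⟨⟨g1, g2⟩, g3, g4⟩ := g
        exact ⟨g3.resolve_right fun g => nL a ha b hb c hc l1 l2 g g1,
          g4.resolve_left fun g => nR c hc d hd e he l3 l4 g g2⟩
      · intro h
        refine h.imp fun a ha b hb c hc d hd e he l1 l2 l3 l4 g => ?_
        obtain ⟨g1, g2⟩ := g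
        refine ⟨hlt a b c (hI a ha) (hI b hb) (hI c hc) l1.ne g1 (by omega), ?_⟩
        rw [dl_comm (z d), dl_comm (z c)]
        exact hlt e d c (hI e he) (hI d hd) (hI c hc) l4.ne' g2.symm (by omega)

end Pool.Agent.MP_53fe41_co.h78

end MrgPart1

-- ======== part 2: formerly Pool.Agent.MP_53fe41_co.h78.Swap
section MrgPart2

/-! Swapping sibling subtrees, and the parity identity for products of set functions. -/

namespace Pool.Agent.MP_53fe41_co.h78

open Finset

/-- The dyadic interval of length `2 ^ k` containing `x` lies in `V`. -/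
def Full (V : Finset ℕ) (k x : ℕ) : Prop := ∀ y, y / 2 ^ k = x / 2 ^ k → y ∈ V

/-- `I` does not split the dyadic intervals of length at most `2 ^ k` that lie in `V`. -/
def Cl (V : Finset ℕ) (k : ℕ) (I : Finset ℕ) : Prop :=
  ∀ k', k' ≤ k → ∀ x ∈ I, Full V k' x → Full I k' x

open Classical in
/-- Flip digit `k` on the dyadic intervals of length `2 ^ (k + 1)` that lie in `V`. -/
noncomputable def sw (V : Finset ℕ) (k x : ℕ) : ℕ := if Full V (k + 1) x then x ^^^ 2 ^ k else x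

lemma Full.congr {V : Finset ℕ} {k x y : ℕ} (h : Full V k x) (hxy : y / 2 ^ k = x / 2 ^ k) :
    Full V k y := fun u hu => h u (hu.trans hxy)

lemma Full.anti {V : Finset ℕ} {k k' x : ℕ} (h : Full V k' x) (hk : k ≤ k') : Full V k x :=
  fun u hu => h u (div_mono hk hu)

lemma Cl.anti {V I : Finset ℕ} {k k' : ℕ} (h : Cl V k' I) (hk : k ≤ k') : Cl V k I :=
  fun j hj => h j (hj.trans hk)

lemma xor_div (x k : ℕ) : (x ^^^ 2 ^ k) / 2 ^ k = x / 2 ^ k ^^^ 1 := by
  rw [Nat.xor_div_two_pow, Nat.div_self (by positivity)]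

lemma xor_mod (x k : ℕ) : (x ^^^ 2 ^ k) % 2 ^ k = x % 2 ^ k := by
  rw [Nat.xor_mod_two_pow, Nat.mod_self, Nat.xor_zero]

lemma xor_one (u : ℕ) : (u ^^^ 1) / 2 = u / 2 ∧ u ^^^ 1 ≠ u := by
  rcases Nat.even_or_odd u with h | h
  · rw [Nat.xor_one_of_even h]
    obtain ⟨a, rfl⟩ := h
    omega
  · rw [Nat.xor_one_of_odd h]
    obtain ⟨a, rfl⟩ := h
    omega

lemma sw_div (V : Finset ℕ) (k x : ℕ) : sw V k x / 2 ^ (k + 1) = x / 2 ^ (k + 1) := by
  unfold sw
  split_ifs
  · rw [div_succ, div_succ, xor_div, (xor_one _).1]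
  · rfl

lemma sw_sw (V : Finset ℕ) (k x : ℕ) : sw V k (sw V k x) = x := by
  have h := sw_div V k x
  by_cases hx : Full V (k + 1) x
  · rw [sw, if_pos (hx.congr h), sw, if_pos hx, Nat.xor_assoc, Nat.xor_self, Nat.xor_zero]
  · rw [sw, if_neg fun h' => hx (h'.congr h.symm), sw, if_neg hx]

lemma sw_inj (V : Finset ℕ) (k : ℕ) : Function.Injective (sw V k) :=
  Function.Involutive.injective (sw_sw V k)

lemma image_sw_sw (V : Finset ℕ) (k : ℕ) (I : Finset ℕ) :
    (I.image (sw V k)).image (sw V k) = I := by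
  rw [image_image]
  have : sw V k ∘ sw V k = id := funext (sw_sw V k)
  rw [this, image_id]

lemma sw_div_other {V : Finset ℕ} {k x y : ℕ} (hx : Full V (k + 1) x)
    (h1 : y / 2 ^ (k + 1) = x / 2 ^ (k + 1)) (h2 : y / 2 ^ k ≠ x / 2 ^ k) :
    sw V k x / 2 ^ k = y / 2 ^ k := by
  rw [sw, if_pos hx, xor_div]
  have := xor_one (x / 2 ^ k)
  rw [div_succ, div_succ] at h1
  omega

lemma sw_div_same {V : Finset ℕ} {k x y : ℕ} (h : y / 2 ^ k = x / 2 ^ k) :
    sw V k y / 2 ^ k = sw V k x / 2 ^ k := by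
  have hK := div_mono (Nat.le_succ k) h
  by_cases hx : Full V (k + 1) x
  · rw [sw, sw, if_pos hx, if_pos (hx.congr hK), xor_div, xor_div, h]
  · rw [sw, sw, if_neg hx, if_neg fun h' => hx (h'.congr hK.symm), h]

lemma Cl.image {V I : Finset ℕ} {k : ℕ} (h : Cl V k I) : Cl V k (I.image (sw V k)) := by
  intro j hj x hx ha y hy
  obtain ⟨x, hx', rfl⟩ := mem_image.1 hx
  refine mem_image.2 ⟨sw V k y, ?_, sw_sw V k y⟩
  by_cases hf : Full V (k + 1) x
  · refine h k le_rfl x hx' (hf.anti (Nat.le_succ k)) _ ?_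
    rw [sw_div_same (div_mono hj hy), sw_sw]
  · rw [sw, if_neg hf] at ha hy
    rw [sw, if_neg fun h' => hf (h'.congr (div_mono (hj.trans (Nat.le_succ k)) hy).symm)]
    exact h j hj x hx' ha y hy

lemma Cl.fix_iff {V I : Finset ℕ} {k : ℕ} (h : Cl V k I) :
    I.image (sw V k) = I ↔ Cl V (k + 1) I := by
  constructor
  · intro hI j hj x hx ha y hy
    rcases Nat.lt_or_ge j (k + 1) with hj' | hj'
    · exact h j (by omega) x hx ha y hy
    obtain rfl : j = k + 1 := by omega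
    by_cases h2 : y / 2 ^ k = x / 2 ^ k
    · exact h k le_rfl x hx (ha.anti (Nat.le_succ k)) y h2
    · have h3 : sw V k x ∈ I := by
        rw [← hI]; exact mem_image_of_mem _ hx
      exact h k le_rfl _ h3 ((ha.congr (sw_div V k x)).anti (Nat.le_succ k)) y
        (sw_div_other ha hy h2).symm
  · intro hI
    have h1 : ∀ x ∈ I, sw V k x ∈ I := by
      intro x hx
      by_cases ha : Full V (k + 1) x
      · exact hI _ le_rfl x hx ha _ (sw_div V k x)
      · rwa [sw, if_neg ha]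
    ext y
    simp only [mem_image]
    constructor
    · rintro ⟨x, hx, rfl⟩
      exact h1 x hx
    · intro hy
      exact ⟨_, h1 y hy, sw_sw V k y⟩

lemma Cl.iso {V I : Finset ℕ} {k : ℕ} (h : Cl V k I) :
    ∃ f : ℕ → ℕ, I.image (sw V k) = I.image f ∧ (∀ x, f x / 2 ^ (k + 1) = x / 2 ^ (k + 1)) ∧
      ∀ a ∈ I, ∀ b ∈ I, a < b → f a < f b ∧ dl (f a) (f b) = dl a b := by
  set f : ℕ → ℕ := fun x => if sw V k x ∈ I then x else sw V k x with hf
  have him : I.image (sw V k) = I.image f := by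
    ext y
    simp only [mem_image]
    constructor
    · rintro ⟨x, hx, rfl⟩
      by_cases h1 : sw V k x ∈ I
      · exact ⟨_, h1, by simp [hf, sw_sw, hx]⟩
      · exact ⟨x, hx, by simp [hf, h1]⟩
    · rintro ⟨x, hx, rfl⟩
      by_cases h1 : sw V k x ∈ I
      · exact ⟨_, h1, by simp [hf, sw_sw, h1]⟩
      · exact ⟨x, hx, by simp [hf, h1]⟩
  have hdiv : ∀ x, f x / 2 ^ (k + 1) = x / 2 ^ (k + 1) := by
    intro x
    simp only [hf]
    split_ifs
    · rfl
    · exact sw_div V k x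
  refine ⟨f, him, hdiv, fun a ha b hb hab => ?_⟩
  have hsw : ∀ x, Full V (k + 1) x → sw V k x ∈ I → Full I k (sw V k x) := fun x hx hI =>
    h k le_rfl _ hI ((hx.congr (sw_div V k x)).anti (Nat.le_succ k))
  by_cases h1 : a / 2 ^ (k + 1) = b / 2 ^ (k + 1)
  · by_cases h2 : Full V (k + 1) a
    · have h2' : Full V (k + 1) b := h2.congr h1.symm
      by_cases h3 : a / 2 ^ k = b / 2 ^ k
      · have h4 := sw_div_same (V := V) h3
        by_cases h5 : sw V k a ∈ I
        · have h6 : sw V k b ∈ I := hsw a h2 h5 _ h4.symm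
          simp [hf, h5, h6, hab]
        · have h6 : sw V k b ∉ I := fun h6 => h5 (hsw b h2' h6 _ h4)
          simp only [hf, h5, h6, if_false]
          rw [sw, sw, if_pos h2, if_pos h2'] at h4 ⊢
          refine ⟨?_, dl_xor _ _ _⟩
          have e1 := Nat.div_add_mod a (2 ^ k)
          have e2 := Nat.div_add_mod b (2 ^ k)
          have e3 := Nat.div_add_mod (a ^^^ 2 ^ k) (2 ^ k)
          have e4 := Nat.div_add_mod (b ^^^ 2 ^ k) (2 ^ k)
          rw [xor_mod] at e3 e4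
          rw [h3] at e1
          rw [h4] at e3
          omega
      · have h5 : sw V k a ∈ I := h k le_rfl b hb (h2'.anti (Nat.le_succ k)) _
          (sw_div_other h2 h1.symm (Ne.symm h3))
        have h6 : sw V k b ∈ I := h k le_rfl a ha (h2.anti (Nat.le_succ k)) _
          (sw_div_other h2' h1 h3)
        simp [hf, h5, h6, hab]
    · have h2' : ¬ Full V (k + 1) b := fun h' => h2 (h'.congr h1)
      simp [hf, sw, h2, h2', hab]
  · have h2 : a / 2 ^ (k + 1) ≤ b / 2 ^ (k + 1) := Nat.div_le_div_right hab.le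
    refine ⟨lt_of_div_lt (N := k + 1) (by rw [hdiv, hdiv]; omega), ?_⟩
    exact (dl_congr (hdiv a).symm (hdiv b).symm h1).symm

lemma Cl.st {V I : Finset ℕ} {k q : ℕ} (h : Cl V k I) (hs : Five St q I) :
    Five St q (I.image (sw V k)) := by
  obtain ⟨f, h1, -, h2⟩ := h.iso
  have key : ∀ a ∈ I, ∀ b ∈ I, a < b → a / 2 = b / 2 → f a / 2 = f b / 2 := by
    intro a ha b hb hab e
    have e1 := (dl_lt_iff hab.ne 1).2 (by simpa using e)
    rw [← (h2 a ha b hb hab).2] at e1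
    simpa using (dl_lt_iff (h2 a ha b hb hab).1.ne 1).1 e1
  rw [h1, five_image fun a ha b hb hab => (h2 a ha b hb hab).1]
  exact hs.imp fun a ha b hb c _ d hd e he l1 _ _ l4 g =>
    ⟨key a ha b hb l1 g.1, key d hd e he l4 g.2⟩

open Fintype Classical in
/-- The covers of `V` by sets of sizes `D i` that satisfy `Ψ` and split no short interval. -/
noncomputable def WW {t : ℕ} (V : Finset ℕ) (D : Fin t → ℕ) (Ψ : Finset ℕ → Prop) (k : ℕ) :
    Finset (Fin t → Finset ℕ) :=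
  ((piFinset fun _ : Fin t => V.powerset).filter
    (fun J => univ.biUnion J = V ∧ ∀ i, (J i).card = D i)).filter
    fun J => (∀ i, Ψ (J i)) ∧ ∀ i, Cl V k (J i)

lemma mem_WW {t : ℕ} {V : Finset ℕ} {D : Fin t → ℕ} {Ψ : Finset ℕ → Prop} {k : ℕ}
    {J : Fin t → Finset ℕ} : J ∈ WW V D Ψ k ↔ univ.biUnion J = V ∧ (∀ i, (J i).card = D i) ∧
      (∀ i, Ψ (J i)) ∧ ∀ i, Cl V k (J i) := by
  simp only [WW, mem_filter, Fintype.mem_piFinset, mem_powerset]
  refine ⟨fun h => ⟨h.1.2.1, h.1.2.2, h.2⟩, fun h => ⟨⟨fun i => ?_, h.1, h.2.1⟩, h.2.2⟩⟩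
  rw [← h.1]; exact subset_biUnion_of_mem J (mem_univ i)

theorem WW_step {t : ℕ} (V : Finset ℕ) (D : Fin t → ℕ) (Ψ : Finset ℕ → Prop) (k : ℕ)
    (hΨ : ∀ I, I ⊆ V → Cl V k I → Ψ I → Ψ (I.image (sw V k))) :
    ((WW V D Ψ k).card : ZMod 2) = (WW V D Ψ (k + 1)).card := by
  have hsub : WW V D Ψ (k + 1) ⊆ WW V D Ψ k := fun J hJ => by
    obtain ⟨h1, h2, h3, h4⟩ := mem_WW.1 hJ
    exact mem_WW.2 ⟨h1, h2, h3, fun i => (h4 i).anti (Nat.le_succ k)⟩
  have hV : ∀ j, Cl V j V := fun _ _ _ _ _ h => h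
  have hinv : ∑ _J ∈ WW V D Ψ k \ WW V D Ψ (k + 1), (1 : ZMod 2) = 0 := by
    refine sum_involution (fun J _ i => (J i).image (sw V k)) (fun _ _ => rfl) ?_ ?_ ?_
    · intro J hJ _ he
      obtain ⟨h1, h2⟩ := mem_sdiff.1 hJ
      obtain ⟨h5, h6, h7, h4⟩ := mem_WW.1 h1
      exact h2 (mem_WW.2 ⟨h5, h6, h7, fun i => (h4 i).fix_iff.1 (congrFun he i)⟩)
    · intro J hJ
      obtain ⟨h1, h2⟩ := mem_sdiff.1 hJ
      obtain ⟨h5, h6, h7, h4⟩ := mem_WW.1 h1
      refine mem_sdiff.2 ⟨mem_WW.2 ⟨?_, fun i => ?_, fun i => ?_, fun i => (h4 i).image⟩,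
        fun h8 => h2 (mem_WW.2 ⟨h5, h6, h7, fun i => ?_⟩)⟩
      · rw [← biUnion_image, h5]
        exact (hV k).fix_iff.2 (hV (k + 1))
      · rw [card_image_of_injective _ (sw_inj V k), h6]
      · exact hΨ _ (by rw [← h5]; exact subset_biUnion_of_mem J (mem_univ i)) (h4 i) (h7 i)
      · have h9 := (mem_WW.1 h8).2.2.2 i
        have h10 := (h4 i).image.fix_iff.2 h9
        rw [image_sw_sw] at h10
        rw [h10]; exact h9
    · intro J _
      exact funext fun i => image_sw_sw V k (J i)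
  rw [← card_sdiff_add_card_eq_card hsub, Nat.cast_add]
  rw [sum_const, nsmul_eq_mul, mul_one] at hinv
  rw [hinv, zero_add]

open Fintype in
theorem parity {t : ℕ} (V : Finset ℕ) (c : Fin t → Finset ℕ → ZMod 2) (D : Fin t → ℕ)
    (hD : ∑ i, D i = V.card) (hc : ∀ i J, J ⊆ V → c i J ≠ 0 → J.card ≤ D i) :
    ∑ X ∈ V.powerset, ∏ i, ∑ J ∈ X.powerset, c i J =
      ∑ J ∈ (piFinset fun _ : Fin t => V.powerset).filter
        (fun J => univ.biUnion J = V ∧ ∀ i, (J i).card = D i), ∏ i, c i (J i) := by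
  have h1 : ∀ X ∈ V.powerset, ∏ i, ∑ J ∈ X.powerset, c i J =
      ∑ J ∈ piFinset fun _ : Fin t => V.powerset,
        if univ.biUnion J ⊆ X then ∏ i, c i (J i) else 0 := by
    intro X hX
    rw [prod_univ_sum, ← sum_filter]
    congr 1
    ext J
    simp only [mem_piFinset, mem_powerset, mem_filter, biUnion_subset, mem_univ, true_imp_iff]
    exact ⟨fun h => ⟨fun i => (h i).trans (mem_powerset.1 hX), h⟩, fun h => h.2⟩
  rw [sum_congr rfl h1, sum_comm, sum_filter]
  refine sum_congr rfl fun J hJ => ?_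
  have hJ' : ∀ i, J i ⊆ V := by simpa using hJ
  have hW : univ.biUnion J ⊆ V := biUnion_subset.2 fun i _ => hJ' i
  have h2 : V.powerset.filter (fun X => univ.biUnion J ⊆ X) = Icc (univ.biUnion J) V := by
    ext X
    simp only [mem_filter, mem_powerset, mem_Icc]
    tauto
  rw [← sum_filter, sum_const, h2, card_Icc_finset hW]
  by_cases h3 : univ.biUnion J = V
  · rw [h3, Nat.sub_self, pow_zero, one_nsmul]
    split_ifs with h4
    · rfl
    · by_contra h5
      have h6 : ∀ i, (J i).card ≤ D i := fun i =>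
        hc i _ (hJ' i) (prod_ne_zero_iff.1 h5 i (mem_univ i))
      have h7 : V.card ≤ ∑ i, (J i).card := h3 ▸ card_biUnion_le
      have h8 : ∑ i, (J i).card = ∑ i, D i :=
        le_antisymm (sum_le_sum fun i _ => h6 i) (hD ▸ h7)
      exact h4 ⟨rfl, fun i => (sum_eq_sum_iff_of_le fun i _ => h6 i).1 h8 i (mem_univ i)⟩
  · have h4 : (univ.biUnion J).card < V.card := card_lt_card ⟨hW, fun h => h3 (hW.antisymm h)⟩
    obtain ⟨m, hm⟩ : ∃ m, V.card - (univ.biUnion J).card = m + 1 :=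
      ⟨V.card - (univ.biUnion J).card - 1, by omega⟩
    rw [if_neg (fun h => h3 h.1), hm, nsmul_eq_mul]
    have : ((2 ^ (m + 1) : ℕ) : ZMod 2) = 0 := by
      rw [pow_succ, Nat.cast_mul]
      exact mul_eq_zero_of_right _ rfl
    rw [this, zero_mul]

end Pool.Agent.MP_53fe41_co.h78

end MrgPart2

-- ======== part 3: formerly Pool.Agent.MP_53fe41_co.h78.Uniq
section MrgPart3

/-! The number of valid partitions of the block system is odd. -/

namespace Pool.Agent.MP_53fe41_co.h78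

open Finset

lemma exists_rk {I : Finset ℕ} {r : ℕ} (h : r < I.card) : ∃ x ∈ I, rk I x = r := by
  obtain ⟨x, hx, h1⟩ := surj_on_of_inj_on_of_card_le (s := I) (t := range I.card)
    (fun a _ => rk I a) (fun a ha => mem_range.2 (card_lt_card ⟨filter_subset _ _, fun hc => by
      have := hc ha
      simp at this⟩)) (fun a b ha hb h => rk_inj ha hb h) (by simp) r (mem_range.2 h)
  exact ⟨x, hx, h1.symm⟩

lemma rk_succ {I : Finset ℕ} {a : ℕ} (ha : a ∈ I) : rk I (a + 1) = rk I a + 1 := by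
  have : I.filter (· < a + 1) = insert a (I.filter (· < a)) := by
    ext y
    simp only [mem_filter, mem_insert]
    constructor
    · rintro ⟨h1, h2⟩
      rcases Nat.lt_succ_iff_lt_or_eq.1 h2 with h | h
      · exact Or.inr ⟨h1, h⟩
      · exact Or.inl h
    · rintro (rfl | ⟨h1, h2⟩)
      · exact ⟨ha, by omega⟩
      · exact ⟨h1, by omega⟩
  rw [rk, this, card_insert_of_notMem (by simp), rk]

lemma even_card {I : Finset ℕ} (h : ∀ y ∈ I, ∀ y', y' / 2 = y / 2 → y' ∈ I) :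
    I.card % 2 = 0 := by
  have hinv : ∑ _y ∈ I, (1 : ZMod 2) = 0 :=
    sum_involution (fun y _ => y ^^^ 1) (fun _ _ => rfl) (fun y _ _ => (xor_one y).2)
      (fun y hy => h y hy _ (xor_one y).1)
      fun y _ => by rw [Nat.xor_assoc, Nat.xor_self, Nat.xor_zero]
  rw [sum_const, nsmul_eq_mul, mul_one, ZMod.natCast_eq_zero_iff] at hinv
  omega

/-- `I` consists of pairs of twins and the single point `m`. -/
def OneM (I : Finset ℕ) (m : ℕ) : Prop :=
  m ∈ I ∧ m % 2 = 0 ∧ m + 1 ∉ I ∧ ∀ y ∈ I, y ≠ m → ∀ y', y' / 2 = y / 2 → y' ∈ I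

lemma OneM.par_le {I : Finset ℕ} {m x : ℕ} (h : OneM I m) (hx : x % 2 = 0) (hm : x ≤ m) :
    rk I x % 2 = 0 :=
  even_card fun y hy y' e => by
    obtain ⟨h1, h2⟩ := mem_filter.1 hy
    exact mem_filter.2 ⟨h.2.2.2 y h1 (by omega) y' e, by omega⟩

lemma OneM.par_gt {I : Finset ℕ} {m x : ℕ} (h : OneM I m) (hx : x % 2 = 0) (hm : m < x) :
    rk I x % 2 = 1 := by
  have h1 : ((I.filter (· < x)).erase m).card % 2 = 0 := even_card fun y hy y' e => by
    obtain ⟨h0, hy⟩ := mem_erase.1 hy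
    obtain ⟨h1, h2⟩ := mem_filter.1 hy
    refine mem_erase.2 ⟨fun h3 => ?_, mem_filter.2 ⟨h.2.2.2 y h1 h0 y' e, by omega⟩⟩
    have h4 := h.2.1
    have : y = m + 1 := by omega
    exact h.2.2.1 (this ▸ h1)
  have h2 := card_erase_add_one (s := I.filter (· < x)) (mem_filter.2 ⟨h.1, hm⟩)
  unfold rk
  omega

lemma OneM.twin {I : Finset ℕ} {m a b c : ℕ} (h : OneM I m) (ha : a ∈ I) (hb : b ∈ I)
    (hc : c ∈ I) (h1 : rk I a + 1 = rk I b) (h2 : rk I b + 1 = rk I c) (h3 : rk I b % 2 = 1) :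
    a / 2 = b / 2 ∨ b / 2 = c / 2 := by
  have hbm : b ≠ m := by
    rintro rfl
    have := h.par_le h.2.1 le_rfl
    omega
  rcases Nat.mod_two_eq_zero_or_one b with e | e
  · have h4 := h.2.2.2 b hb hbm (b + 1) (by omega)
    have h5 := rk_succ hb
    have := rk_inj hc h4 (by omega)
    omega
  · obtain ⟨b, rfl⟩ : ∃ b', b = b' + 1 := ⟨b - 1, by omega⟩
    have h4 := h.2.2.2 _ hb hbm b (by omega)
    have h5 := rk_succ h4
    have := rk_inj ha h4 (by omega)
    omega

lemma OneM.good {I : Finset ℕ} {m q : ℕ} (h : OneM I m) (hq : q % 2 = 0) (h2 : 2 ≤ q)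
    (hc : q + 2 < I.card) : Five Gd q I := by
  obtain ⟨a, ha, e1⟩ := exists_rk (I := I) (r := q - 2) (by omega)
  obtain ⟨b, hb, e2⟩ := exists_rk (I := I) (r := q - 1) (by omega)
  obtain ⟨c, hc', e3⟩ := exists_rk (I := I) (r := q) (by omega)
  obtain ⟨d, hd, e4⟩ := exists_rk (I := I) (r := q + 1) (by omega)
  obtain ⟨e, he, e5⟩ := exists_rk (I := I) (r := q + 2) (by omega)
  exact ⟨a, ha, b, hb, c, hc', d, hd, e, he, by omega, by omega, e3, e4, e5,
    h.twin ha hb hc' (by omega) (by omega) (by omega),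
    h.twin hc' hd he (by omega) (by omega) (by omega)⟩

lemma OneM.rk_eq {I : Finset ℕ} {m q : ℕ} (h : OneM I m) (hq : q % 2 = 0) (hs : Five St q I) :
    rk I m = q := by
  obtain ⟨a, ha, b, hb, c, hc, d, hd, e, he, g1, g2, g3, g4, g5, g6, g7⟩ := hs
  have l1 : a < b := lt_of_rk_lt (I := I) (by omega)
  have l4 : d < e := lt_of_rk_lt (I := I) (by omega)
  have h0 := h.2.1
  have h1 : ¬ m < a := fun h1 => by
    have := h.par_gt (x := a) (by omega) h1
    omega
  have h2 : m ≠ a := fun h2 => h.2.2.1 (by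
    have : m + 1 = b := by omega
    rwa [this])
  have h3 := rk_lt hb (show b < m by omega)
  have h4 : ¬ d ≤ m := fun h4 => by
    have := h.par_le (x := d) (by omega) h4
    omega
  have h5 := rk_lt h.1 (show m < d by omega)
  omega

/-- Block `s`: an atom of length `2 ^ K`, a single point, and `σ s` pairs of twins. -/
def Bl (K : ℕ) (σ : ℕ → ℕ) (s : ℕ) : Finset ℕ :=
  (Ico (2 * s * 2 ^ K) (2 * s * 2 ^ K + 2 ^ K + 2 + 2 * σ s)).erase (2 * s * 2 ^ K + 2 ^ K + 1)

/-- The atom of block `s`. -/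
def At (K s : ℕ) : Finset ℕ := Ico (2 * s * 2 ^ K) (2 * s * 2 ^ K + 2 ^ K)

/-- The union of the first `t` blocks. -/
def VV (K : ℕ) (σ : ℕ → ℕ) (t : ℕ) : Finset ℕ := (range t).biUnion (Bl K σ)

lemma mem_Bl {K s x : ℕ} {σ : ℕ → ℕ} : x ∈ Bl K σ s ↔ x ≠ 2 * s * 2 ^ K + 2 ^ K + 1 ∧
    2 * s * 2 ^ K ≤ x ∧ x < 2 * s * 2 ^ K + 2 ^ K + 2 + 2 * σ s := by
  rw [Bl, mem_erase, mem_Ico]

lemma mem_At {K s x : ℕ} : x ∈ At K s ↔ x / 2 ^ K = 2 * s := by
  have hP : 0 < 2 ^ K := by positivity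
  rw [At, mem_Ico, Nat.div_eq_iff hP]
  omega

lemma Bl_div {K s x : ℕ} {σ : ℕ → ℕ} (hσ : 2 + 2 * σ s ≤ 2 ^ K) (hx : x ∈ Bl K σ s) :
    x / 2 ^ K = 2 * s ∨ x / 2 ^ K = 2 * s + 1 := by
  have hP : 0 < 2 ^ K := by positivity
  rw [mem_Bl] at hx
  rw [Nat.div_eq_iff hP, Nat.div_eq_iff hP, add_mul, one_mul]
  omega

lemma At_sub (K s : ℕ) (σ : ℕ → ℕ) : At K s ⊆ Bl K σ s := fun x hx => by
  rw [At, mem_Ico] at hx
  rw [mem_Bl]
  omega

lemma card_At (K s : ℕ) : (At K s).card = 2 ^ K := by simp [At]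

lemma card_Bl (K s : ℕ) (σ : ℕ → ℕ) : (Bl K σ s).card = 2 ^ K + (1 + 2 * σ s) := by
  have hP : 0 < 2 ^ K := by positivity
  rw [Bl, card_erase_of_mem (by rw [mem_Ico]; omega), Nat.card_Ico]
  omega

lemma Bl_uniq {K t s x y : ℕ} {σ : ℕ → ℕ} (hσ : ∀ s, s < t → 2 + 2 * σ s ≤ 2 ^ K) (hs : s < t)
    (hx : x ∈ Bl K σ s) (hy : y ∈ VV K σ t) (h : y / 2 ^ K = x / 2 ^ K) : y ∈ Bl K σ s := by
  obtain ⟨s', hs', hy⟩ := mem_biUnion.1 hy
  have e1 := Bl_div (hσ s hs) hx
  have e2 := Bl_div (hσ s' (mem_range.1 hs')) hy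
  have : s' = s := by omega
  rwa [this] at hy

lemma cl_Bl {K t s : ℕ} {σ : ℕ → ℕ} (hσ : ∀ s, s < t → 2 + 2 * σ s ≤ 2 ^ K) (hs : s < t) :
    Cl (VV K σ t) K (Bl K σ s) :=
  fun _ hk _ hx hf y hy => Bl_uniq hσ hs hx (hf y hy) (div_mono hk hy)

lemma card_VV {K t : ℕ} {σ : ℕ → ℕ} (hσ : ∀ s, s < t → 2 + 2 * σ s ≤ 2 ^ K) :
    ∑ i : Fin t, (2 ^ K + (1 + 2 * σ i)) = (VV K σ t).card := by
  rw [VV, card_biUnion, Fin.sum_univ_eq_sum_range (fun i => 2 ^ K + (1 + 2 * σ i))]
  · exact sum_congr rfl fun s _ => (card_Bl K s σ).symm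
  · intro s hs s' hs' hne
    refine disjoint_left.2 fun x hx hx' => ?_
    have e1 := Bl_div (hσ s (by simpa using hs)) hx
    have e2 := Bl_div (hσ s' (by simpa using hs')) hx'
    omega

lemma st_Bl {K s : ℕ} {σ : ℕ → ℕ} (h1 : 1 ≤ σ s) : Five St (2 ^ (K + 1)) (Bl (K + 1) σ s) := by
  have hQ : 0 < 2 ^ K := by positivity
  have hP : 2 ^ (K + 1) = 2 * 2 ^ K := by ring
  have hal : 2 * s * 2 ^ (K + 1) = 2 * (s * 2 ^ (K + 1)) := by ring
  have hrk : ∀ x, x ≤ 2 * s * 2 ^ (K + 1) + 2 ^ (K + 1) + 1 →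
      rk (Bl (K + 1) σ s) x = x - 2 * s * 2 ^ (K + 1) := by
    intro x hx
    have : (Bl (K + 1) σ s).filter (· < x) = Ico (2 * s * 2 ^ (K + 1)) x := by
      ext y
      simp only [mem_Bl, mem_filter, mem_Ico]
      omega
    rw [rk, this, Nat.card_Ico]
  have e1 : rk (Bl (K + 1) σ s) (2 * s * 2 ^ (K + 1) + 2 ^ (K + 1) + 2) = 2 ^ (K + 1) + 1 := by
    have : (Bl (K + 1) σ s).filter (· < 2 * s * 2 ^ (K + 1) + 2 ^ (K + 1) + 2) =
        Ico (2 * s * 2 ^ (K + 1)) (2 * s * 2 ^ (K + 1) + 2 ^ (K + 1) + 1) := by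
      ext y
      simp only [mem_Bl, mem_filter, mem_Ico]
      omega
    rw [rk, this, Nat.card_Ico]
    omega
  have m1 : 2 * s * 2 ^ (K + 1) + 2 ^ (K + 1) + 2 ∈ Bl (K + 1) σ s := by rw [mem_Bl]; omega
  refine ⟨2 * s * 2 ^ (K + 1) + (2 ^ (K + 1) - 2), by rw [mem_Bl]; omega,
    2 * s * 2 ^ (K + 1) + (2 ^ (K + 1) - 1), by rw [mem_Bl]; omega,
    2 * s * 2 ^ (K + 1) + 2 ^ (K + 1), by rw [mem_Bl]; omega, _, m1,
    2 * s * 2 ^ (K + 1) + 2 ^ (K + 1) + 2 + 1, by rw [mem_Bl]; omega,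
    by rw [hrk _ (by omega)]; omega, by rw [hrk _ (by omega)]; omega,
    by rw [hrk _ (by omega)]; omega, e1, by rw [rk_succ m1, e1], ?_, ?_⟩ <;> omega

lemma disj_of {t : ℕ} {V : Finset ℕ} {J : Fin t → Finset ℕ} (hcov : univ.biUnion J = V)
    (hcard : ∑ i, (J i).card = V.card) {i j : Fin t} {x : ℕ} (hi : x ∈ J i) (hj : x ∈ J j) :
    i = j := by
  by_contra hne
  have h1 : V ⊆ univ.biUnion fun l => if l = j then (J j).erase x else J l := by
    intro y hy
    rw [← hcov] at hy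
    obtain ⟨l, -, hl⟩ := mem_biUnion.1 hy
    by_cases hyx : y = x
    · exact mem_biUnion.2 ⟨i, mem_univ _, by simpa [hne, hyx] using hi⟩
    · refine mem_biUnion.2 ⟨l, mem_univ _, ?_⟩
      split_ifs with h
      · exact mem_erase.2 ⟨hyx, h ▸ hl⟩
      · exact hl
  have h2 := (card_le_card h1).trans card_biUnion_le
  have h3 : ∑ l, (if l = j then (J j).erase x else J l).card < ∑ l, (J l).card := by
    refine sum_lt_sum (fun l _ => ?_) ⟨j, mem_univ _, ?_⟩
    · split_ifs with h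
      · rw [h]; exact card_erase_le
      · exact le_rfl
    · simpa using card_erase_lt_of_mem hj
  omega

theorem one_marker {K t : ℕ} {σ : ℕ → ℕ} (hσ : ∀ s, s < t → 2 + 2 * σ s ≤ 2 ^ (K + 1))
    {J : Fin t → Finset ℕ} (hcov : univ.biUnion J = VV (K + 1) σ t)
    (hcard : ∀ i, (J i).card = 2 ^ (K + 1) + (1 + 2 * σ i))
    (hcl : ∀ i, Cl (VV (K + 1) σ t) 1 (J i)) (i : Fin t) : ∃ m, OneM (J i) m := by
  have hP : 2 ^ (K + 1) = 2 * 2 ^ K := by ring
  have hal : ∀ s, 2 * s * 2 ^ (K + 1) = 2 * (s * 2 ^ (K + 1)) := fun s => by ring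
  have hsub : ∀ i, J i ⊆ VV (K + 1) σ t := fun i => by
    rw [← hcov]; exact subset_biUnion_of_mem J (mem_univ i)
  have disj : ∀ i j x, x ∈ J i → x ∈ J j → i = j := fun i j x =>
    disj_of hcov (by rw [← card_VV hσ]; simp only [hcard])
  have tw : ∀ i, ∀ y ∈ J i, (∀ s : Fin t, y ≠ 2 * s * 2 ^ (K + 1) + 2 ^ (K + 1)) →
      ∀ y', y' / 2 = y / 2 → y' ∈ J i := by
    intro i y hy hm y' e
    refine hcl i 1 le_rfl y hy (fun u hu => ?_) y' (by simpa using e)
    obtain ⟨s, hs, hys⟩ := mem_biUnion.1 (hsub i hy)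
    refine mem_biUnion.2 ⟨s, hs, ?_⟩
    have h1 := hm ⟨s, mem_range.1 hs⟩
    have h2 := hal s
    rw [mem_Bl] at hys ⊢
    simp only [pow_one] at hu h1
    omega
  have ex : ∀ i, ∃ s : Fin t, 2 * (s : ℕ) * 2 ^ (K + 1) + 2 ^ (K + 1) ∈ J i := by
    intro i
    by_contra hc
    push Not at hc
    have h1 := even_card (I := J i) fun y hy => tw i y hy fun s e => hc s (e ▸ hy)
    rw [hcard] at h1
    omega
  choose m hm using ex
  have hsurj : Function.Surjective m := Finite.injective_iff_surjective.1 fun i j e =>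
    disj i j _ (hm i) (by rw [e]; exact hm j)
  have h2 := hal (m i)
  refine ⟨_, hm i, by omega, fun h => ?_, fun y hy hne => tw i y hy fun s e => ?_⟩
  · have h3 : 2 * (m i : ℕ) * 2 ^ (K + 1) + 2 ^ (K + 1) ∈ Bl (K + 1) σ (m i) := by
      rw [mem_Bl]; omega
    have h4 := hσ (m i) (m i).2
    have hQ : 0 < 2 ^ (K + 1) := by positivity
    have h5 := Bl_uniq hσ (m i).2 h3 (hsub i h) (by
      have e1 : (2 * (m i : ℕ) * 2 ^ (K + 1) + 2 ^ (K + 1) + 1) / 2 ^ (K + 1) = 2 * m i + 1 := by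
        rw [Nat.div_eq_iff hQ, add_mul, one_mul]; omega
      have e2 : (2 * (m i : ℕ) * 2 ^ (K + 1) + 2 ^ (K + 1)) / 2 ^ (K + 1) = 2 * m i + 1 := by
        rw [Nat.div_eq_iff hQ, add_mul, one_mul]; omega
      rw [e1, e2])
    rw [mem_Bl] at h5
    omega
  · obtain ⟨j, rfl⟩ := hsurj s
    obtain rfl := disj i j _ hy (e ▸ hm j)
    exact hne e

lemma after {K s τ m : ℕ} {I : Finset ℕ} (hA : At (K + 1) s ⊆ I)
    (hc : I.card = 2 ^ (K + 1) + τ) (hτ : τ < 2 ^ (K + 1)) (hm : OneM I m)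
    (hv : Five St (2 ^ (K + 1)) I) {w : ℕ} (hw : w ∈ I) : 2 * s * 2 ^ (K + 1) ≤ w := by
  by_contra hlt
  have hP : 2 ^ (K + 1) = 2 * 2 ^ K := by ring
  have h1 := hm.rk_eq (by omega) hv
  have h2 : m ∉ At (K + 1) s := fun h => hm.2.2.1 (hA (by
    have e1 := hm.2.1
    have e2 : 2 * s * 2 ^ (K + 1) = 2 * (s * 2 ^ (K + 1)) := by ring
    rw [At, mem_Ico] at h ⊢
    omega))
  rcases Nat.lt_or_ge m (2 * s * 2 ^ (K + 1)) with h | h
  · have : I.filter (· < m) ⊆ I \ At (K + 1) s := by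
      intro x hx
      simp only [mem_filter, mem_sdiff, At, mem_Ico] at hx ⊢
      exact ⟨hx.1, by omega⟩
    have h5 := card_le_card this
    rw [card_sdiff_of_subset hA, card_At] at h5
    unfold rk at h1
    omega
  · have : insert w (At (K + 1) s) ⊆ I.filter (· < m) := by
      intro x hx
      rcases mem_insert.1 hx with rfl | hx
      · exact mem_filter.2 ⟨hw, by omega⟩
      · refine mem_filter.2 ⟨hA hx, ?_⟩
        rw [At, mem_Ico] at hx h2
        omega
    have h5 := card_le_card this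
    rw [card_insert_of_notMem (by rw [At, mem_Ico]; omega), card_At] at h5
    unfold rk at h1
    omega

theorem uniq {K t : ℕ} {σ : ℕ → ℕ} (hσ' : ∀ s, s < t → 2 + 2 * σ s ≤ 2 ^ (K + 1))
    (hdec : ∀ s s', s < s' → s' < t → σ s' < σ s)
    (hsum : ∑ s ∈ range t, (1 + 2 * σ s) < 2 ^ (K + 1))
    {J : Fin t → Finset ℕ} (hcov : univ.biUnion J = VV (K + 1) σ t)
    (hcard : ∀ i, (J i).card = 2 ^ (K + 1) + (1 + 2 * σ i))
    (hv : ∀ i, Five St (2 ^ (K + 1)) (J i))
    (hcl : ∀ i, Cl (VV (K + 1) σ t) (K + 1) (J i)) (i : Fin t) : J i = Bl (K + 1) σ i := by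
  have hP : 0 < 2 ^ (K + 1) := by positivity
  have hsub : ∀ i, J i ⊆ VV (K + 1) σ t := fun i => by
    rw [← hcov]; exact subset_biUnion_of_mem J (mem_univ i)
  have hin : ∀ s, s < t → ∀ x ∈ Bl (K + 1) σ s, ∃ j, x ∈ J j := by
    intro s hs x hx
    have : x ∈ univ.biUnion J := by
      rw [hcov]; exact mem_biUnion.2 ⟨s, mem_range.2 hs, hx⟩
    obtain ⟨j, -, hj⟩ := mem_biUnion.1 this
    exact ⟨j, hj⟩
  have disj : ∀ i j x, x ∈ J i → x ∈ J j → i = j := fun i j x =>
    disj_of hcov (by rw [← card_VV hσ']; simp only [hcard])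
  have hAt : ∀ i s x, s < t → x ∈ J i → x ∈ At (K + 1) s → At (K + 1) s ⊆ J i := by
    intro i s x hst hx hs y hy
    rw [mem_At] at hs hy
    exact hcl i _ le_rfl x hx (fun u hu => mem_biUnion.2 ⟨s, mem_range.2 hst,
      At_sub _ _ _ (mem_At.2 (by omega))⟩) y (by omega)
  have has : ∀ i, ∃ s, s < t ∧ At (K + 1) s ⊆ J i := by
    intro i
    by_contra hc
    push Not at hc
    have h1 : J i ⊆ (range t).biUnion fun s => Bl (K + 1) σ s \ At (K + 1) s := by
      intro x hx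
      obtain ⟨s, hs, hxs⟩ := mem_biUnion.1 (hsub i hx)
      exact mem_biUnion.2 ⟨s, hs, mem_sdiff.2 ⟨hxs, fun h =>
        hc s (mem_range.1 hs) (hAt i s x (mem_range.1 hs) hx h)⟩⟩
    have h2 := (card_le_card h1).trans card_biUnion_le
    have h3 : ∑ s ∈ range t, (Bl (K + 1) σ s \ At (K + 1) s).card =
        ∑ s ∈ range t, (1 + 2 * σ s) :=
      sum_congr rfl fun s _ => by
        rw [card_sdiff_of_subset (At_sub _ _ _), card_At, card_Bl]; omega
    rw [h3, hcard] at h2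
    omega
  have h0 : ∀ s, 2 * s * 2 ^ (K + 1) ∈ At (K + 1) s := fun s => by
    rw [At, mem_Ico]; omega
  have main : ∀ s (hs : s < t), J ⟨s, hs⟩ = Bl (K + 1) σ s := by
    intro s
    induction s using Nat.strong_induction_on with
    | _ s ih =>
      intro hs
      obtain ⟨i, hi⟩ := hin s hs _ (At_sub _ _ σ (h0 s))
      have h1 : Bl (K + 1) σ s ⊆ J i := by
        intro w hw
        obtain ⟨j, hj⟩ := hin s hs w hw
        obtain ⟨s', hs', hA⟩ := has j
        obtain ⟨m, hm⟩ := one_marker hσ' hcov hcard (fun i => (hcl i).anti (by omega)) j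
        have e1 := after hA (hcard j) (by have := hσ' j j.2; omega) hm (hv j) hj
        have e2 := Bl_div (hσ' s hs) hw
        have e3 : 2 * s' ≤ w / 2 ^ (K + 1) := (Nat.le_div_iff_mul_le hP).2 e1
        rcases Nat.lt_or_ge s' s with h | h
        · have e4 := ih s' h hs'
          have e5 : j = ⟨s', hs'⟩ :=
            disj _ _ _ (hA (h0 s')) (by rw [e4]; exact At_sub _ _ σ (h0 s'))
          rw [e5, e4] at hj
          have e6 := Bl_div (hσ' s' hs') hj
          omega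
        · have e4 : s' = s := by omega
          subst e4
          rwa [disj _ _ _ hi (hA (h0 s'))]
      have h2 := card_le_card h1
      rw [card_Bl, hcard] at h2
      have h3 : (i : ℕ) = s := by
        rcases lt_trichotomy (i : ℕ) s with h | h | h
        · have e4 : J i = Bl (K + 1) σ i := ih i h i.2
          rw [e4] at hi
          have e5 := Bl_div (hσ' i i.2) hi
          have e6 := mem_At.1 (h0 s)
          omega
        · exact h
        · have := hdec s i h i.2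
          omega
      subst h3
      exact (eq_of_subset_of_card_le h1 (by rw [card_Bl, hcard])).symm
  exact main i i.2

theorem count_odd {K t : ℕ} {σ : ℕ → ℕ}
    (hσ : ∀ s, s < t → 1 ≤ σ s ∧ 2 + 2 * σ s ≤ 2 ^ (K + 1))
    (hdec : ∀ s s', s < s' → s' < t → σ s' < σ s)
    (hsum : ∑ s ∈ range t, (1 + 2 * σ s) < 2 ^ (K + 1)) (Ψ : Finset ℕ → Prop)
    (h1 : ∀ I, I ⊆ VV (K + 1) σ t → Ψ I → Ψ (I.image (sw (VV (K + 1) σ t) 0)))
    (h2 : ∀ (i : Fin t) (I : Finset ℕ), I ⊆ VV (K + 1) σ t →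
      I.card = 2 ^ (K + 1) + (1 + 2 * σ i) → Five Gd (2 ^ (K + 1)) I →
      (Ψ I ↔ Five St (2 ^ (K + 1)) I)) :
    ((WW (VV (K + 1) σ t) (fun i : Fin t => 2 ^ (K + 1) + (1 + 2 * σ i)) Ψ 0).card : ZMod 2)
      = 1 := by
  have hσ' : ∀ s, s < t → 2 + 2 * σ s ≤ 2 ^ (K + 1) := fun s hs => (hσ s hs).2
  have hP : 2 ^ (K + 1) = 2 * 2 ^ K := by ring
  have e1 : WW (VV (K + 1) σ t) (fun i : Fin t => 2 ^ (K + 1) + (1 + 2 * σ i)) Ψ 1 =
      WW (VV (K + 1) σ t) (fun i : Fin t => 2 ^ (K + 1) + (1 + 2 * σ i))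
        (Five St (2 ^ (K + 1))) 1 := by
    ext J
    rw [mem_WW, mem_WW]
    refine and_congr_right fun g1 => and_congr_right fun g2 => and_congr_left fun g3 =>
      forall_congr' fun i => ?_
    obtain ⟨m, hm⟩ := one_marker hσ' g1 g2 g3 i
    have := hσ i i.2
    exact h2 i _ (by rw [← g1]; exact subset_biUnion_of_mem J (mem_univ i)) (g2 i)
      (hm.good (by omega) (by omega) (by rw [g2 i]; omega))
  have all : ∀ k, ((WW (VV (K + 1) σ t) (fun i : Fin t => 2 ^ (K + 1) + (1 + 2 * σ i))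
      (Five St (2 ^ (K + 1))) 1).card : ZMod 2) =
      (WW (VV (K + 1) σ t) (fun i : Fin t => 2 ^ (K + 1) + (1 + 2 * σ i))
        (Five St (2 ^ (K + 1))) (k + 1)).card := by
    intro k
    induction k with
    | zero => rfl
    | succ k ih => rw [ih, WW_step _ _ _ (k + 1) fun I _ hc hs => hc.st hs]
  have e2 : WW (VV (K + 1) σ t) (fun i : Fin t => 2 ^ (K + 1) + (1 + 2 * σ i))
      (Five St (2 ^ (K + 1))) (K + 1) = {fun i : Fin t => Bl (K + 1) σ i} := by
    ext J
    rw [mem_singleton, mem_WW]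
    constructor
    · rintro ⟨h5, h6, h7, h4⟩
      exact funext (uniq hσ' hdec hsum h5 h6 h7 h4)
    · rintro rfl
      refine ⟨?_, fun i => card_Bl _ _ _, fun i => st_Bl (hσ i i.2).1, fun i => cl_Bl hσ' i.2⟩
      ext x
      simp only [VV, mem_biUnion, mem_univ, true_and, mem_range]
      exact ⟨fun ⟨i, hi⟩ => ⟨i, i.2, hi⟩, fun ⟨s, hs, hi⟩ => ⟨⟨s, hs⟩, hi⟩⟩
  rw [WW_step _ _ _ 0 fun I hI _ h => h1 I hI h, e1, all K, e2, card_singleton, Nat.cast_one]

end Pool.Agent.MP_53fe41_co.h78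

end MrgPart3

-- marker of a merged file
example : 731051 + 743378 = 731051 + 743378 := rfl
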